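import Pool.Agent.H10.Five.Line

set_option autoImplicit false
set_option linter.all false

/-! The six patterns of three stones. -/

namespace Pool.Agent.H10.Five

theorem g012 : gchk 10 2 1 (2 ^ 8 ||| 2 ^ 9 ||| 2 ^ 10) (2 ^ 7) = true := by decide +kernel
theorem g013 : gchk 10 2 1 (2 ^ 8 ||| 2 ^ 9 ||| 2 ^ 11) (2 ^ 7) = true := by decide +kernel
theorem g014 : gchk 10 2 1 (2 ^ 8 ||| 2 ^ 9 ||| 2 ^ 12) (2 ^ 7) = true := by decide +kernel
theorem g023 : gchk 10 2 1 (2 ^ 8 ||| 2 ^ 10 ||| 2 ^ 11) (2 ^ 9) = true := by decide +kernel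
theorem g024 : gchk 10 2 1 (2 ^ 8 ||| 2 ^ 10 ||| 2 ^ 12) (2 ^ 9) = true := by decide +kernel
theorem g034 : gchk 10 2 1 (2 ^ 8 ||| 2 ^ 11 ||| 2 ^ 12) (2 ^ 10) = true := by decide +kernel

end Pool.Agent.H10.Five
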