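import Pool.Agent.H10.Five.Exc4

set_option autoImplicit false
set_option linter.all false
set_option maxRecDepth 10000

/-! Soundness at scope 1 with hot windows, for an arbitrary mask `Z`. -/

namespace Pool.Agent.H10.Five

open Pool.Agent.H79.Five

variable {Z : Cell → Prop}

def WC1 (Z : Cell → Prop) (E U : Finset Cell) : Prop :=
  ∀ a d : Cell, IsDir d → Avo E a d → cnt U a d ≤ 1 ∨
    (cnt U a d ≤ 3 ∧ ∀ l : ℕ, l < 5 → a + (l : ℤ) • d ∈ U ∨ ¬ Z (a + (l : ℤ) • d))

/-- The line game at scope 1: a further stone anywhere leads to the game `EX` of scope 2, or it is a far four. -/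
def EX1 (Z : Cell → Prop) : ℕ → Finset Cell → Finset Cell → Prop
  | 0, E, U => WC1 Z E U ∧ ∀ s, s ∉ E → EX Z 0 E (insert s U)
  | k + 1, E, U => WC1 Z E U ∧ ∀ s, s ∉ E → EX Z (k + 1) E (insert s U) ∨
      (s ∉ U ∧ ¬ Z s ∧ ∃ y, y ∉ E ∧ y ∉ insert s U ∧ ¬ Z y ∧ EX1 Z k (insert y E) (insert s U))

theorem EX.up {k : ℕ} : ∀ {E U : Finset Cell}, EX Z k E U → EX Z (k + 1) E U := by
  induction k with
  | zero =>
    intro E U h
    refine ⟨h.wc, fun s hs hsU => Or.inl fun a d hd ha => ?_⟩
    have h1 := h a d hd ha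
    have h2 := cnt_insert hd U s a
    omega
  | succ k ih =>
    intro E U h
    refine ⟨h.1, fun s hs hsU => ?_⟩
    rcases h.2 s hs hsU with h1 | ⟨h1, y, h2, h3, h4, h5⟩
    · exact Or.inl h1
    · exact Or.inr ⟨h1, y, h2, h3, h4, ih h5⟩

theorem EX1.wc1 {k : ℕ} {E U : Finset Cell} (h : EX1 Z k E U) : WC1 Z E U := by
  cases k with
  | zero => exact h.1
  | succ k => exact h.1

theorem WC1.wc {E U : Finset Cell} (h : WC1 Z E U) : WC Z E U := fun a d hd ha => by
  rcases h a d hd ha with h1 | h1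
  · left; omega
  · exact Or.inr h1

theorem WC1.mono {E E' U : Finset Cell} (h : WC1 Z E U) (hE : E ⊆ E') : WC1 Z E' U :=
  fun a d hd ha => h a d hd fun l hl hc => ha l hl (hE hc)

theorem EX1.ex {k : ℕ} : ∀ {E U : Finset Cell}, EX1 Z k E U → EX Z k E U := by
  induction k with
  | zero =>
    intro E U h a d hd ha
    obtain ⟨s, hs⟩ := Infinite.exists_notMem_finset E
    exact (cnt_mono (Finset.subset_insert s U) a d).trans (h.2 s hs a d hd ha)
  | succ k ih =>
    intro E U h
    refine ⟨h.1.wc, fun s hs hsU => ?_⟩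
    rcases h.2 s hs with h1 | ⟨-, h1, y, h2, h3, h4, h5⟩
    · exact Or.inl fun a d hd ha => h1.wc.le3 hd ha
    · exact Or.inr ⟨h1, y, h2, h3, h4, ih h5⟩

theorem EX1.mono {k : ℕ} : ∀ {E E' U : Finset Cell}, EX1 Z k E U → E ⊆ E' → EX1 Z k E' U := by
  induction k with
  | zero => exact fun {E E' U} h hE => ⟨h.1.mono hE, fun s hs => (h.2 s fun hc => hs (hE hc)).mono hE⟩
  | succ k ih =>
    intro E E' U h hE
    refine ⟨h.1.mono hE, fun s hs => ?_⟩
    rcases h.2 s (fun hc => hs (hE hc)) with h1 | ⟨hsU, hZs, y, hyE, hyU, hZy, hy⟩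
    · exact Or.inl (h1.mono hE)
    · by_cases hyE' : y ∈ E'
      · left
        exact (ih hy (Finset.insert_subset hyE' hE)).ex.up
      · exact Or.inr ⟨hsU, hZs, y, hyE', hyU, hZy, ih hy (Finset.insert_subset_insert _ hE)⟩

/-- Second cannot have five after his next move. -/
theorem safety1 {X P : ℕ} {A B E U R : Finset Cell} (h : Rep X A B) (hBZ : ∀ c ∈ B, Z c) (hs : saf X = true)
    (hP : Zle 1 (nd X 1) P) (hW : WC1 Z E U) (hU : ∀ c ∈ U, ¬ zn P 0 c) (hR : R ⊆ B ∪ U)
    (hdis : Disjoint R (A ∪ E)) {s : Cell} (hsA : s ∉ A ∪ E) : ¬ Five (insert s R) := by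
  intro h5
  obtain ⟨a, d, hd, hw, hcnt⟩ := cnt_five h5
  have hfree : ∀ k : ℕ, k < 5 → a + (k : ℤ) • d ∉ A ∪ E := by
    intro k hk hc
    rcases Finset.mem_insert.1 (hw k hk) with h1 | h1
    · exact hsA (h1 ▸ hc)
    · exact Finset.disjoint_left.1 hdis h1 hc
  have hA : Avo A a d := fun k hk hc => hfree k hk (Finset.mem_union_left _ hc)
  have hE : Avo E a d := fun k hk hc => hfree k hk (Finset.mem_union_right _ hc)
  have hb := saf_spec h hs hd hA
  have h1 := cnt_insert hd R s a
  have h2 := cnt_mono hR a d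
  have h3 := cnt_union B U a d
  rcases hW a d hd hE with h4 | ⟨h4, h5⟩
  · by_cases hb3 : 3 ≤ cnt B a d
    · have h6 : ∀ l : ℕ, l < 5 → zn P 0 (a + (l : ℤ) • d) := fun l hl =>
        hP 0 (by norm_num) _ (nd_spec h (by norm_num) (by norm_num) hd hA (by omega) hl)
      have h7 : cnt U a d = 0 := by
        by_contra hc
        obtain ⟨l, hl, hlU⟩ := cnt_pos (by omega : 1 ≤ cnt U a d)
        exact hU _ hlU (h6 l hl)
      omega
    · omega
  · have h6 : cnt (B ∪ U) a d ≤ cnt U a d := by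
      apply Finset.card_le_card
      intro l hl
      rw [Finset.mem_filter, Finset.mem_range] at hl
      rw [Finset.mem_filter, Finset.mem_range]
      refine ⟨hl.1, ?_⟩
      rcases Finset.mem_union.1 hl.2 with h7 | h7
      · rcases h5 l hl.1 with h8 | h8
        · exact h8
        · exact absurd (hBZ _ h7) h8
      · exact h7
    omega

theorem cov1 {p : ℕ} {E U U' : Finset Cell} {s : Cell} (hU : ∀ c ∈ U, ¬ zn p 0 c) (hsub : U' ⊆ insert s U)
    (hs : s ∈ U' → s ∉ U → ¬ zn p 1 s) : U2 p E U' where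
  w1 a d hd ha hz := by
    have h0 : cnt U a d = 0 := by
      by_contra hc
      obtain ⟨l, hl, hlU⟩ := cnt_pos (by omega : 1 ≤ cnt U a d)
      exact hU _ hlU (hz l hl)
    have h4 := cnt_mono hsub a d
    have h5 := cnt_insert hd U s a
    omega
  w2 a d hd ha hz hz1 := by
    by_contra hc
    obtain ⟨l, hl, hlU⟩ := cnt_pos (by omega : 1 ≤ cnt U' a d)
    have h8 : a + (l : ℤ) • d ∉ U := fun h => hU _ h (hz l hl)
    rcases Finset.mem_insert.1 (hsub hlU) with h7 | h7
    · exact hs (h7 ▸ hlU) (h7 ▸ h8) (h7 ▸ hz1 l hl)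
    · exact h8 h7
  ce c hc h0 h1 := by
    have h8 : c ∉ U := fun h => hU _ h h0
    rcases Finset.mem_insert.1 (hsub hc) with h7 | h7
    · exact hs (h7 ▸ hc) (h7 ▸ h8) (h7 ▸ h1)
    · exact h8 h7

def Node1 (Z : Cell → Prop) (t : T) : Prop := ∀ (X N I DR acc : ℕ) (A B : Finset Cell), Rep X A B →
  F t false X 1 I DR acc = N + 1 → (∀ c, zn (N >>> 64) 0 c → Z c) →
  (∀ c ∈ A, Z c) → (∀ c ∈ B, Z c) → ∀ (k : ℕ) (E U R : Finset Cell), EX1 Z k E U → (∀ c ∈ U, ¬ zn (N >>> 64) 0 c) → R ⊆ B ∪ U →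
  Disjoint R (A ∪ E) → W (ht t + k) (A ∪ E) R

def Alt1 (Z : Cell → Prop) (t : T) : Prop := ∀ (X N I DR acc : ℕ) (A B : Finset Cell), Rep X A B →
  F t true X 1 I DR acc = N + 1 → (∀ c, zn (N >>> 64) 0 c → Z c) →
  (∀ c ∈ A, Z c) → (∀ c ∈ B, Z c) → ∀ (k : ℕ) (E U R : Finset Cell), EX1 Z k E U → (∀ c ∈ U, ¬ zn (N >>> 64) 0 c) → R ⊆ B ∪ U →
  Disjoint R (A ∪ E) → ∀ n0, (∀ s, s ∉ A ∪ E → s ∉ R →
    EX Z k E (insert s U) →
    (I.testBit (6 * yi B s) = false ∨ DR.testBit (6 * yi B s) = true) → W n0 (A ∪ E) (insert s R)) →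
  ∀ s, s ∉ A ∪ E → s ∉ R → EX Z k E (insert s U) →
    W (max n0 (ht t + k)) (A ∪ E) (insert s R)

theorem node1_v (w c : ℕ) : Node1 Z (.v w c) := by
  intro X N I DR acc A B hX hF hZ hAZ hBZ k E U R hC hU hR hdis
  have h1 := (nod_eq (b := false) (r := fV w c X 1) hF).2
  obtain ⟨h2, h3⟩ := grd_eq (b := fiv X w c) h1
  obtain ⟨hc, h4, h5⟩ := fiv_spec hX h2
  have hP := res_eq h3
  obtain ⟨hA, hB⟩ := hX.four hc h4
  have hz : ∀ i < 1, zn (N >>> 64) i (cl c) := fun i hi => by
    rw [hP]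
    exact zn_cell hc (bit_lt hc) (by norm_num) hi (bit_self c)
  have hcU : cl c ∉ U := fun h => hU _ h (hz 0 (by norm_num))
  have hcR : cl c ∉ R := notR hR hB hcU
  apply W.le (n := 1) (by change 1 ≤ 1 + k; omega)
  by_cases hE : cl c ∈ E
  · exact W.of_five (n := 0) (h5.mono (by
      intro z hz
      rcases Finset.mem_insert.1 hz with rfl | hz
      · exact Finset.mem_union_right _ hE
      · exact Finset.mem_union_left _ hz))
  · exact ⟨cl c, by simp [hA, hE], hcR, Or.inl (h5.mono (Finset.insert_subset_insert _ Finset.subset_union_left))⟩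

theorem node1_d (m w c w2 c2 : ℕ) : Node1 Z (.d m w c w2 c2) := by
  intro X N I DR acc A B hX hF hZ hAZ hBZ k E U R hC hU hR hdis
  have h1 := (nod_eq (b := false) (r := grd (fre X m) (fD m w c w2 c2 X 1 (plA X m))) hF).2
  obtain ⟨hf, h2⟩ := grd_eq (b := fre X m) h1
  obtain ⟨hg, h3⟩ := grd_eq (b := Bool.and (Bool.and (fiv (plA X m) w c) (fiv (plA X m) w2 c2))
    (Bool.and (Bool.not (Nat.beq c c2)) (saf (plA X m)))) h2
  obtain ⟨hg1, hg2⟩ := andb hg
  obtain ⟨hf1, hf2⟩ := andb hg1
  obtain ⟨hne, hs⟩ := andb hg2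
  have hP := res_eq h3
  obtain ⟨hm, hmi, hmA, hmB⟩ := fre_spec hX hf
  have hX1 := hX.plA hf
  obtain ⟨hc, hc4, hc5⟩ := fiv_spec hX1 hf1
  obtain ⟨hc', hc4', hc5'⟩ := fiv_spec hX1 hf2
  obtain ⟨hcA, hcB⟩ := hX1.four hc hc4
  obtain ⟨hcA', hcB'⟩ := hX1.four hc' hc4'
  have hYlt : Nat.lor (bit m) (Nat.lor (bit c) (bit c2)) < 2 ^ 6144 :=
    or_lt (bit_lt hm) (or_lt (bit_lt hc) (bit_lt hc'))
  have hzm : ∀ i < 1, zn (N >>> 64) i (cl m) := fun i hi => by
    rw [hP]; exact zn_or' (zn_cell hm hYlt (by norm_num) hi (tb_or (bit_self m)))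
  have hzc : ∀ i < 1, zn (N >>> 64) i (cl c) := fun i hi => by
    rw [hP]; exact zn_or' (zn_cell hc hYlt (by norm_num) hi (tb_or' (tb_or (bit_self c))))
  have hzc' : ∀ i < 1, zn (N >>> 64) i (cl c2) := fun i hi => by
    rw [hP]; exact zn_or' (zn_cell hc' hYlt (by norm_num) hi (tb_or' (tb_or' (bit_self c2))))
  have hmU : cl m ∉ U := fun h => hU _ h (hzm 0 (by norm_num))
  have hcU : cl c ∉ U := fun h => hU _ h (hzc 0 (by norm_num))
  have hcU' : cl c2 ∉ U := fun h => hU _ h (hzc' 0 (by norm_num))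
  apply W.le (n := 1 + 1) (by change 2 ≤ 2 + k; omega)
  apply W.play hmA (notR hR hmB hmU) hdis
  intro E' hE' hdis' s hsA hsR
  refine ⟨safety1 hX1 hBZ hs (P := N >>> 64) ?_ (hC.wc1.mono hE') hU hR hdis' hsA, ?_⟩
  · intro i hi x hx
    rw [hP]; exact zn_or hx
  · by_cases hsc : s = cl c
    · apply four_win (n := 0) hc5' hcA' (notR hR hcB' hcU')
      intro h
      have : c = c2 := cl_inj (hsc.symm.trans h)
      rw [this] at hne
      simp at hne
    · exact four_win (n := 0) hc5 hcA (notR hR hcB hcU) hsc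

theorem node1_r (m w c : ℕ) (t : T) (ih : Node1 Z t) : Node1 Z (.r m w c t) := by
  intro X N I DR acc A B hX hF hZ hAZ hBZ k E U R hC hU hR hdis
  have h1 := (nod_eq (b := false) (r := grd (fre X m) (fR m w c (F t) X 1 (plA X m))) hF).2
  obtain ⟨hf, h2⟩ := grd_eq (b := fre X m) h1
  obtain ⟨hg, h3⟩ := grd_eq (b := Bool.and (Bool.and (fiv (plA X m) w c) (fre (plA X m) c)) (saf (plA X m))) h2
  obtain ⟨hg1, hs⟩ := andb hg
  obtain ⟨hf1, hfc⟩ := andb hg1
  obtain ⟨p, hk, h4⟩ := bnd_eq (r := F t false (Nat.lor (plA X m) (bit c)) 1 0 0 0) h3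
  have hP := res_eq h4
  obtain ⟨hm, hmi, hmA, hmB⟩ := fre_spec hX hf
  have hX1 := hX.plA hf
  obtain ⟨hc, hc4, hc5⟩ := fiv_spec hX1 hf1
  obtain ⟨hcA, hcB⟩ := hX1.four hc hc4
  have hX2 := hX1.plB hfc
  have hYlt : Nat.lor (bit m) (bit c) < 2 ^ 6144 := or_lt (bit_lt hm) (bit_lt hc)
  have hzm : ∀ i < 1, zn (N >>> 64) i (cl m) := fun i hi => by
    rw [hP]; exact zn_or' (zn_or' (zn_cell hm hYlt (by norm_num) hi (tb_or (bit_self m))))
  have hzc : ∀ i < 1, zn (N >>> 64) i (cl c) := fun i hi => by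
    rw [hP]; exact zn_or' (zn_or' (zn_cell hc hYlt (by norm_num) hi (tb_or' (bit_self c))))
  have hmU : cl m ∉ U := fun h => hU _ h (hzm 0 (by norm_num))
  have hcU : cl c ∉ U := fun h => hU _ h (hzc 0 (by norm_num))
  have hpz : ∀ i, ∀ x, zn (p >>> 64) i x → zn (N >>> 64) i x := by
    intro i x hx
    rw [hP]; exact zn_or hx
  have he : ht (.r m w c t) + k = ((ht t + k) + 1) + 1 := by change ht t + 2 + k = _; omega
  rw [he]
  apply W.play hmA (notR hR hmB hmU) hdis
  intro E' hE' hdis' s hsA hsR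
  refine ⟨safety1 hX1 hBZ hs (P := N >>> 64) ?_ (hC.wc1.mono hE') hU hR hdis' hsA, ?_⟩
  · intro i hi x hx
    rw [hP]; exact zn_or' (zn_or hx)
  · by_cases hsc : s = cl c
    · apply W.succ
      apply ih _ p 0 0 0 _ _ hX2 hk (fun x hx => hZ x (hpz 0 x hx)) ?_ ?_ k E' U (insert s R) (hC.mono hE')
        (fun x hx hz => hU x hx (hpz 0 x hz))
      · rw [hsc]
        intro z hz
        rcases Finset.mem_insert.1 hz with rfl | hz
        · exact Finset.mem_union_left _ (Finset.mem_insert_self _ _)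
        · rcases Finset.mem_union.1 (hR hz) with h | h
          · exact Finset.mem_union_left _ (Finset.mem_insert_of_mem h)
          · exact Finset.mem_union_right _ h
      · rw [Finset.disjoint_insert_left]
        exact ⟨hsA, hdis'⟩
      · intro x hx
        rcases Finset.mem_insert.1 hx with rfl | hx
        · exact hZ _ (hzm 0 (by norm_num))
        · exact hAZ x hx
      · intro x hx
        rcases Finset.mem_insert.1 hx with rfl | hx
        · exact hZ _ (hzc 0 (by norm_num))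
        · exact hBZ x hx
    · exact four_win (n := ht t + k) hc5 hcA (notR hR hcB hcU) hsc

/-- Second to move at a quiet node. -/
theorem quiet1 (m : ℕ) (t : T) (iha : Alt1 Z t) {X N : ℕ} {A B : Finset Cell}
    (hX1 : Rep X A B) (hF : fQ m (F t) 1 X = N + 1) (hZ : ∀ c, zn (N >>> 64) 0 c → Z c)
    (hAZ : ∀ c ∈ A, Z c) (hBZ : ∀ c ∈ B, Z c) (k : ℕ) :
    ∀ {E U R : Finset Cell}, EX1 Z k E U → (∀ c ∈ U, ¬ zn (N >>> 64) 0 c) → R ⊆ B ∪ U →
    Disjoint R (A ∪ E) → WS (ht t + k) (A ∪ E) R := by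
  obtain ⟨hs, h3⟩ := grd_eq (b := saf X) hF
  have hacc := mono_acc t h3
  have hnz : Zle 1 (nd X 1) (N >>> 64) := fun i hi x hx => ⟨hx.1, hacc _ (tb_or hx.2)⟩
  have hmain : ∀ (k : ℕ) {E U R : Finset Cell}, EX1 Z k E U → (∀ c ∈ U, ¬ zn (N >>> 64) 0 c) → R ⊆ B ∪ U →
      Disjoint R (A ∪ E) → ∀ s, s ∉ A ∪ E → s ∉ R →
      EX Z k E (insert s U) → W (ht t + k) (A ∪ E) (insert s R) := by
    intro k E U R hC hU hR hdis s hsA hsR h4
    have := iha X N ones 0 _ A B hX1 h3 hZ hAZ hBZ k E U R hC hU hR hdis 0 ?_ s hsA hsR h4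
    · simpa using this
    · intro s _ _ _ h
      rcases h with h | h
      · rw [ones_tb (yi_lt B s)] at h; exact absurd h (by simp)
      · rw [Nat.zero_testBit] at h; exact absurd h (by simp)
  have hE' : ∀ {E : Finset Cell} {s : Cell}, s ∉ A ∪ E → s ∉ E := fun hs h => hs (Finset.mem_union_right _ h)
  induction k with
  | zero =>
    intro E U R hC hU hR hdis s hsA hsR
    exact ⟨safety1 hX1 hBZ hs hnz hC.wc1 hU hR hdis hsA, hmain 0 hC hU hR hdis s hsA hsR (hC.2 s (hE' hsA))⟩
  | succ k ih =>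
    intro E U R hC hU hR hdis s hsA hsR
    refine ⟨safety1 hX1 hBZ hs hnz hC.wc1 hU hR hdis hsA, ?_⟩
    rcases hC.2 s (hE' hsA) with h4 | ⟨hsU, hZs, y, hyE, hyU, hZy, hy⟩
    · exact hmain (k + 1) hC hU hR hdis s hsA hsR h4
    · have hyA : y ∉ A := fun h => hZy (hAZ _ h)
      have hyB : y ∉ B := fun h => hZy (hBZ _ h)
      have hR' : insert s R ⊆ B ∪ insert s U := by
        intro z hz
        rcases Finset.mem_insert.1 hz with rfl | hz
        · exact Finset.mem_union_right _ (Finset.mem_insert_self _ _)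
        · rcases Finset.mem_union.1 (hR hz) with h | h
          · exact Finset.mem_union_left _ h
          · exact Finset.mem_union_right _ (Finset.mem_insert_of_mem h)
      have hyR : y ∉ insert s R := notR hR' hyB hyU
      have he : insert y (A ∪ E) = A ∪ insert y E := by rw [Finset.union_insert]
      refine ⟨y, by simp [hyA, hyE], hyR, Or.inr ?_⟩
      rw [he]
      apply ih hy
      · intro c hc hz
        rcases Finset.mem_insert.1 hc with rfl | hc
        · exact hZs (hZ _ hz)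
        · exact hU c hc hz
      · exact hR'
      · rw [← he, Finset.disjoint_insert_right, Finset.disjoint_insert_left]
        exact ⟨hyR, hsA, hdis⟩

theorem node1_q (m : ℕ) (t : T) (iha : Alt1 Z t) : Node1 Z (.q m t) := by
  intro X N I DR acc A B hX hF hZ hAZ hBZ k E U R hC hU hR hdis
  have h1 := (nod_eq (b := false) (r := grd (fre X m) (fQ m (F t) 1 (plA X m))) hF).2
  obtain ⟨hf, h2⟩ := grd_eq (b := fre X m) h1
  obtain ⟨hm, hmi, hmA, hmB⟩ := fre_spec hX hf
  have hX1 := hX.plA hf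
  have hzm : ∀ i < 1, zn (N >>> 64) i (cl m) := fun i hi => quiet_acc m t h2 hm (by norm_num) hi
  have hmU : cl m ∉ U := fun h => hU _ h (hzm 0 (by norm_num))
  have he : ht (.q m t) + k = (ht t + k) + 1 := by change ht t + 1 + k = _; omega
  rw [he]
  apply W.play hmA (notR hR hmB hmU) hdis
  intro E' hE' hdis'
  refine quiet1 m t iha hX1 h2 hZ ?_ hBZ k (hC.mono hE') hU hR hdis'
  intro x hx
  rcases Finset.mem_insert.1 hx with rfl | hx
  · exact hZ _ (hzm 0 (by norm_num))
  · exact hAZ x hx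

theorem alt1_e : Alt1 Z .e := by
  intro X N I DR acc A B hX hF hZ hAZ hBZ k E U R hC hU hR hdis n0 H s hsA hsR h3'
  have h1 := (grd_eq (b := true) (r := fE X I DR acc) hF).2
  obtain ⟨h2, -⟩ := grd_eq (b := Nat.beq (Nat.lor (Nat.land I (emp X)) DR) DR) (r := res X acc) h1
  have h3 := Nat.eq_of_beq_eq_true h2
  change (I &&& emp X) ||| DR = DR at h3
  have he := emp_spec (yi_lt B s) (yi_dg hX (s := s) (fun h => hsA (Finset.mem_union_left _ h)))
  apply W.le (le_max_left _ _)
  apply H s hsA hsR h3'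
  by_cases hI : I.testBit (6 * yi B s) = true
  · right
    rw [← h3, Nat.testBit_or, Nat.testBit_and, hI, he]; rfl
  · left; simpa using hI

theorem alt1_a (z : ℕ) (D : List ℕ) (t n : T) (hDZ : ∀ c ∈ cells (bits D), Z c) (ihk : z = 0 → Node1 Z t) (ihk2 : z ≠ 0 → Node2 Z t)
    (ihn : Alt1 Z n) :
    Alt1 Z (.a z D t n) := by
  intro X N I DR acc A B hX hF hNZ hAZ hBZ k E U R hC hU hR hdis n0 H
  have h1 := (grd_eq (b := true) (r := grd (dOk X (bits D)) (fA z (bits D) (F t) (F n) X 1 I DR acc)) hF).2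
  obtain ⟨hO, h2⟩ := grd_eq (b := dOk X (bits D)) (r := fA z (bits D) (F t) (F n) X 1 I DR acc) h1
  obtain ⟨hX2, hAD, hBD⟩ := hX.lor (dg01_bits D) hO
  have hmax : max n0 (ht (.a z D t n) + k) = max (max n0 (ht t + k)) (ht n + k) := by
    change max n0 (max (ht t) (ht n) + k) = _
    omega
  have hsub : ∀ s U', insert s R ⊆ (B ∪ cells (bits D)) ∪ U' ↔ (s ∈ (B ∪ cells (bits D)) ∪ U' ∧ R ⊆ (B ∪ cells (bits D)) ∪ U') :=
    fun s U' => Finset.insert_subset_iff
  have hRsub : ∀ U', U ⊆ U' → R ⊆ (B ∪ cells (bits D)) ∪ U' := by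
    intro U' hU z hz
    rcases Finset.mem_union.1 (hR hz) with h | h
    · exact Finset.mem_union_left _ (Finset.mem_union_left _ h)
    · exact Finset.mem_union_right _ (hU h)
  have hdis' : ∀ s, s ∉ A ∪ E → Disjoint (insert s R) (A ∪ E) := by
    intro s hs
    rw [Finset.disjoint_insert_left]; exact ⟨hs, hdis⟩
  cases z with
  | zero =>
    obtain ⟨p, hk, h3⟩ := bnd_eq (r := F t false (Nat.lor X (bits D)) 1 0 0 0)
      (k := fun p => F n true X 1 I (Nat.lor DR (bits D)) (Nat.lor acc (Nat.shiftRight p 64))) h2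
    have hacc := mono_acc n h3
    have hpz : ∀ i, ∀ x, zn (p >>> 64) i x → zn (N >>> 64) i x := fun i x hx => ⟨hx.1, hacc _ (tb_or' hx.2)⟩
    have hH : ∀ s, s ∉ A ∪ E → s ∉ R → EX Z k E (insert s U) →
        (I.testBit (6 * yi B s) = false ∨ (Nat.lor DR (bits D)).testBit (6 * yi B s) = true) →
        W (max n0 (ht t + k)) (A ∪ E) (insert s R) := by
      intro s hsA hsR hs3 hs
      by_cases hold : I.testBit (6 * yi B s) = false ∨ DR.testBit (6 * yi B s) = true
      · exact W.le (le_max_left _ _) (H s hsA hsR hs3 hold)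
      · have hD : (bits D).testBit (6 * yi B s) = true := by
          rcases hs with hs | hs
          · exact absurd (Or.inl hs) hold
          · change (DR ||| bits D).testBit _ = true at hs
            rw [Nat.testBit_or, Bool.or_eq_true] at hs
            rcases hs with hs | hs
            · exact absurd (Or.inr hs) hold
            · exact hs
        have hin := (dOk_inr hO hD).2
        have hy : Inb s ∧ s ∉ B := by
          by_contra hc
          unfold yi at hin
          rw [if_neg hc] at hin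
          exact zero_not_inr hin
        have hsD : s ∈ cells (bits D) := by
          rw [mem_cells]
          refine ⟨hy.1, ?_⟩
          unfold yi at hD
          rwa [if_pos hy] at hD
        apply W.le (le_max_right _ _)
        apply (ihk rfl) _ p 0 0 0 A _ hX2 hk (fun x hx => hNZ x (hpz 0 x hx)) hAZ ?_ k E U _ hC
          (fun x hx hz => hU x hx (hpz 0 x hz))
        · rw [hsub]
          exact ⟨Finset.mem_union_left _ (Finset.mem_union_right _ hsD), hRsub U (Finset.Subset.refl _)⟩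
        · exact hdis' s hsA
        · intro x hx
          rcases Finset.mem_union.1 hx with hx | hx
          · exact hBZ x hx
          · exact hDZ x hx
    have := ihn X N I _ _ A B hX h3 hNZ hAZ hBZ k E U R hC hU hR hdis _ hH
    rw [hmax]
    exact this
  | succ z =>
    obtain ⟨hj2, h3⟩ := grd_eq (b := Nat.ble 1 2) h2
    obtain ⟨p, hk, h4⟩ := bnd_eq (r := F t false (Nat.lor X (bits D)) (Nat.succ 1) 0 0 0) h3
    have hacc := mono_acc n h4
    have hZ : ∀ x, zn (p >>> 64) 0 x → zn (N >>> 64) 0 x := by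
      intro x hx
      refine ⟨hx.1, hacc _ (tb_or' ?_)⟩
      change (p >>> 64 &&& mask 1).testBit _ = true
      rw [Nat.testBit_and, hx.2, Bool.true_and]
      have hlt : 6144 * 0 + 6 * ix x < 6144 * 1 := by
        have := ix_lt hx.1
        omega
      change (1 <<< (6144 * 1) - 1).testBit _ = true
      rw [Nat.one_shiftLeft, Nat.testBit_two_pow_sub_one]
      simpa using hlt
    have hU0 : ∀ c ∈ U, ¬ zn (p >>> 64) 0 c := fun c hc hz => hU c hc (hZ c hz)
    have hBD : ∀ c ∈ B ∪ cells (bits D), Z c := by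
      intro x hx
      rcases Finset.mem_union.1 hx with hx | hx
      · exact hBZ x hx
      · exact hDZ x hx
    have hH : ∀ s, s ∉ A ∪ E → s ∉ R → EX Z k E (insert s U) →
        ((Nat.land I (Nat.xor (Nat.shiftRight p (Nat.add 64 (Nat.mul 6144 1)))
          (Nat.land (Nat.shiftRight p (Nat.add 64 (Nat.mul 6144 1))) (bits D)))).testBit (6 * yi B s) = false ∨
          DR.testBit (6 * yi B s) = true) → W (max n0 (ht t + k)) (A ∪ E) (insert s R) := by
      intro s hsA hsR hs3 hs
      by_cases hold : I.testBit (6 * yi B s) = false ∨ DR.testBit (6 * yi B s) = true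
      · exact W.le (le_max_left _ _) (H s hsA hsR hs3 hold)
      · apply W.le (le_max_right _ _)
        have hI : I.testBit (6 * yi B s) = true := by
          by_contra hc; exact hold (Or.inl (by simpa using hc))
        have hs1 : (p >>> (64 + 6144 * 1)).testBit (6 * yi B s) = false ∨ (bits D).testBit (6 * yi B s) = true := by
          rcases hs with hs | hs
          · change (I &&& (p >>> (64 + 6144 * 1) ^^^ (p >>> (64 + 6144 * 1) &&& bits D))).testBit _ = false at hs
            rw [Nat.testBit_and, hI, Bool.true_and, Nat.testBit_xor, Nat.testBit_and] at hs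
            by_cases hp : (p >>> (64 + 6144 * 1)).testBit (6 * yi B s) = true
            · right
              rw [hp] at hs
              by_contra hc
              rw [Bool.not_eq_true] at hc
              rw [hc] at hs
              simp at hs
            · left; simpa using hp
          · exact absurd (Or.inr hs) hold
        have hUU : U2 (p >>> 64) E U := cov1 hU0 (Finset.subset_insert s U) (fun h h' => absurd h h')
        have hback : W (ht t + k) (A ∪ E) (insert s R) ∨ (Inb s ∧ s ∉ B ∧ (bits D).testBit (6 * ix s) = false) ∨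
            ¬ (Inb s ∧ s ∉ B) ∧ s ∉ B := by
          by_cases hB : s ∈ B
          · left
            apply (ihk2 (Nat.succ_ne_zero z)) _ p 0 0 0 A _ hX2 hk (fun x hx => hNZ x (hZ x hx)) hAZ hBD k E U _ hC.ex hUU
            · rw [hsub]
              exact ⟨Finset.mem_union_left _ (Finset.mem_union_left _ hB), hRsub U (Finset.Subset.refl _)⟩
            · exact hdis' s hsA
          · by_cases hy : Inb s ∧ s ∉ B
            · by_cases hD : (bits D).testBit (6 * ix s) = true
              · left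
                have hsD : s ∈ cells (bits D) := mem_cells.2 ⟨hy.1, hD⟩
                apply (ihk2 (Nat.succ_ne_zero z)) _ p 0 0 0 A _ hX2 hk (fun x hx => hNZ x (hZ x hx)) hAZ hBD k E U _ hC.ex hUU
                · rw [hsub]
                  exact ⟨Finset.mem_union_left _ (Finset.mem_union_right _ hsD), hRsub U (Finset.Subset.refl _)⟩
                · exact hdis' s hsA
              · exact Or.inr (Or.inl ⟨hy.1, hB, by simpa using hD⟩)
            · exact Or.inr (Or.inr ⟨hy, hB⟩)
        have hfar : ¬ zn (p >>> 64) 1 s → W (ht t + k) (A ∪ E) (insert s R) := by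
          intro hz
          apply (ihk2 (Nat.succ_ne_zero z)) _ p 0 0 0 A _ hX2 hk (fun x hx => hNZ x (hZ x hx)) hAZ hBD k E (insert s U) _ hs3
            (cov1 hU0 (Finset.Subset.refl _) (fun _ _ => hz))
          · rw [hsub]
            exact ⟨Finset.mem_union_right _ (Finset.mem_insert_self _ _), hRsub _ (Finset.subset_insert _ _)⟩
          · exact hdis' s hsA
        rcases hback with hb | ⟨hin, hB, hD⟩ | ⟨hy, hB⟩
        · exact hb
        · apply hfar
          intro hz
          have hyi : yi B s = ix s := if_pos ⟨hin, hB⟩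
          rw [hyi] at hs1
          have h5 := hz.2
          rw [Nat.testBit_shiftRight] at h5
          rcases hs1 with h6 | h6
          · rw [Nat.testBit_shiftRight, show 64 + 6144 * 1 + 6 * ix s = 64 + (6144 * 1 + 6 * ix s) by ring, h5] at h6
            exact absurd h6 (by simp)
          · rw [hD] at h6; exact absurd h6 (by simp)
        · exact hfar fun hz => hy ⟨hz.1, hB⟩
    have := ihn X N _ _ _ A B hX h4 hNZ hAZ hBZ k E U R hC hU hR hdis _ hH
    rw [hmax]
    exact this

theorem sound1 (t : T) : DZ1 Z t → Node1 Z t ∧ Alt1 Z t := by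
  induction t with
  | e =>
    intro _
    refine ⟨?_, alt1_e⟩
    intro X N I DR acc A B _ h
    exact absurd (grd_eq (b := false) (r := fE X I DR acc) h).1 (by simp)
  | v w c =>
    intro _
    refine ⟨node1_v w c, ?_⟩
    intro X N I DR acc A B _ h
    exact absurd (nod_eq (b := true) (r := fV w c X 1) h).1 (by simp)
  | d m w c w2 c2 =>
    intro _
    refine ⟨node1_d m w c w2 c2, ?_⟩
    intro X N I DR acc A B _ h
    exact absurd (nod_eq (b := true) (r := grd (fre X m) (fD m w c w2 c2 X 1 (plA X m))) h).1 (by simp)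
  | r m w c k ih =>
    intro hD
    refine ⟨node1_r m w c k (ih hD).1, ?_⟩
    intro X N I DR acc A B _ h
    exact absurd (nod_eq (b := true) (r := grd (fre X m) (fR m w c (F k) X 1 (plA X m))) h).1 (by simp)
  | q m a ih =>
    intro hD
    refine ⟨node1_q m a (ih hD).2, ?_⟩
    intro X N I DR acc A B _ h
    exact absurd (nod_eq (b := true) (r := grd (fre X m) (fQ m (F a) 1 (plA X m))) h).1 (by simp)
  | a z D k n ihk ihn =>
    intro hD
    refine ⟨?_, alt1_a z D k n hD.1 (fun h => (ihk (hD.2.1 h)).1) (fun h => (sound2 k (hD.2.2.1 h)).1) (ihn hD.2.2.2).2⟩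
    intro X N I DR acc A B _ h
    exact absurd (grd_eq (b := false) (r := grd (dOk X (bits D)) (fA z (bits D) (F k) (F n) X 1 I DR acc)) h).1 (by simp)

end Pool.Agent.H10.Five
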