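import Pool.Agent.H10.Five.Dec
import Pool.Agent.H79.Five.Comp

set_option autoImplicit false
set_option linter.all false
set_option maxRecDepth 10000

/-! Two far stones of Second. -/

namespace Pool.Agent.H10.Five

open Pool.Agent.H79.Five

/-- Cells left of the border. -/
def Zb (c : Cell) : Prop := c.1 ≤ 27

theorem inr_Zb (c : Cell) (h : Inr c) : Zb c := by
  unfold Inr at h; unfold Zb; omega

/-- The reply `s` needs its own certificate. -/
def Near (N0 : ℕ) (Y : Cell → Prop) (s : Cell) : Prop := (∃ i < 2, zn (N0 >>> 64) i s) ∨ (Y s ∧ 26 ≤ s.1)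

/-- Certificates of bounded depth. -/
def Cert (A0 : Finset Cell) (Y : Cell → Prop) (M : ℕ) (s : Cell) : Prop :=
  ∃ (X N : ℕ) (B : Finset Cell) (t : T), Rep X A0 B ∧ s ∈ B ∧ F t false X 2 0 0 0 = N + 1 ∧
    (∀ i < 2, ∀ c, zn (N >>> 64) i c → Y c) ∧ ht t ≤ M

theorem noFive {A E R : Finset Cell} (h : ∀ a d : Cell, IsDir d → Avo E a d → cnt R a d ≤ 3) (hdis : Disjoint R (A ∪ E))
    {s : Cell} (hsA : s ∉ A ∪ E) : ¬ Five (insert s R) := by
  intro h5
  obtain ⟨a, d, hd, hw, hcnt⟩ := cnt_five h5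
  have hE : Avo E a d := by
    intro k hk hc
    rcases Finset.mem_insert.1 (hw k hk) with h1 | h1
    · exact hsA (h1 ▸ Finset.mem_union_right _ hc)
    · exact Finset.disjoint_left.1 hdis h1 (Finset.mem_union_right _ hc)
  have h1 := h a d hd hE
  have h2 := cnt_insert hd R s a
  omega

structure Sys (A0 : Finset Cell) (X0 N0 : ℕ) (Y : Cell → Prop) (M : ℕ) (t0 : T) : Prop where
  rep : Rep X0 A0 ∅
  cert : F t0 false X0 2 0 0 0 = N0 + 1
  hA : ∀ c ∈ A0, c.1 ≤ 24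
  hY : ∀ c, Y c → c.1 ≤ 27
  h0 : ∀ i < 2, ∀ c, zn (N0 >>> 64) i c → Y c
  hM : ht t0 ≤ M
  near : ∀ s, s ∉ A0 → Near N0 Y s → Cert A0 Y M s

variable {A0 : Finset Cell} {X0 N0 M : ℕ} {Y : Cell → Prop} {t0 : T}

theorem Sys.nearW (S : Sys A0 X0 N0 Y M t0) {k : ℕ} {E U R : Finset Cell} (hEX : EX Zb k E U) (hU : ∀ c ∈ U, ¬ Y c)
    (hR : R ⊆ U) (hdis : Disjoint R (A0 ∪ E)) {s : Cell} (hs : s ∉ A0 ∪ E) (hn : Near N0 Y s) :
    W (M + k) (A0 ∪ E) (insert s R) := by
  obtain ⟨X, N, B, t, hX, hsB, hF, hz, hM⟩ := S.near s (fun h => hs (Finset.mem_union_left _ h)) hn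
  apply W.le (n := ht t + k) (by omega)
  apply (soundE inr_Zb t).1 X N 0 0 0 A0 B hX hF (fun i hi c hc => S.hY c (hz i hi c hc)) k E U _ hEX
    (fun c hc i hi h => hU c hc (hz i hi c h))
  · intro z hz
    rcases Finset.mem_insert.1 hz with rfl | hz
    · exact Finset.mem_union_left _ hsB
    · exact Finset.mem_union_right _ (hR hz)
  · rw [Finset.disjoint_insert_left]; exact ⟨hs, hdis⟩

theorem Sys.farW (S : Sys A0 X0 N0 Y M t0) {k : ℕ} {E U R : Finset Cell} {s : Cell} (hEX : EX Zb k E (insert s U))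
    (hU : ∀ c ∈ U, ¬ Y c) (hR : R ⊆ U) (hdis : Disjoint R (A0 ∪ E)) (hs : s ∉ A0 ∪ E) (hn : ¬ Near N0 Y s) :
    W (M + k) (A0 ∪ E) (insert s R) := by
  have hM := S.hM
  apply W.le (n := ht t0 + k) (by omega)
  apply (soundE inr_Zb t0).1 X0 N0 0 0 0 A0 ∅ S.rep S.cert (fun i hi c hc => S.hY c (S.h0 i hi c hc)) k E (insert s U) _ hEX
  · intro c hc i hi h
    rcases Finset.mem_insert.1 hc with rfl | hc
    · exact hn (Or.inl ⟨i, hi, h⟩)
    · exact hU c hc (S.h0 i hi c h)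
  · rw [Finset.empty_union]
    exact Finset.insert_subset_insert _ hR
  · rw [Finset.disjoint_insert_left]; exact ⟨hs, hdis⟩

theorem play' {n : ℕ} {A E R : Finset Cell} {m : Cell} (hA : m ∉ A) (hR : m ∉ R) (hdis : Disjoint R (A ∪ E))
    (h : ∀ E', insert m E ⊆ E' → Disjoint R (A ∪ E') → WS n (A ∪ E') R) : W (n + 1) (A ∪ E) R := by
  apply W.play hA hR hdis
  intro E' hE' hdis'
  have he : insert m A ∪ E' = A ∪ insert m E' := by
    rw [Finset.insert_union, Finset.union_insert]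
  rw [he] at hdis' ⊢
  exact h _ (Finset.insert_subset_insert _ hE') hdis'

theorem RA_spec (w : ℕ) (h : RA.testBit w = true) : 4 ≤ w ∧ w < 28 := by
  have hw : w < 28 := by
    by_contra hc
    have : RA < 2 ^ w := lt_of_lt_of_le (show RA < 2 ^ 28 by decide) (Nat.pow_le_pow_right (by norm_num) (by omega))
    rw [Nat.testBit_lt_two_pow this] at h
    exact Bool.noConfusion h
  revert h
  revert w
  decide

theorem RB_spec (w : ℕ) (h : RB.testBit w = true) : 8 ≤ w ∧ w < 16 := by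
  have hw : w < 16 := by
    by_contra hc
    have : RB < 2 ^ w := lt_of_lt_of_le (show RB < 2 ^ 16 by decide) (Nat.pow_le_pow_right (by norm_num) (by omega))
    rw [Nat.testBit_lt_two_pow this] at h
    exact Bool.noConfusion h
  revert h
  revert w
  decide

theorem cnt_empty (a d : Cell) : cnt ∅ a d = 0 := by
  unfold cnt
  rw [Finset.card_eq_zero, Finset.filter_eq_empty_iff]
  intro k _; simp

theorem VOK_empty (p d : Cell) (rg : ℕ) : VOK p d rg ∅ where
  one a d' _ := by rw [cnt_empty]; omega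
  far x hx := absurd hx (Finset.notMem_empty _)

theorem VOK_one {p d s : Cell} (hs : ∀ v : ℕ, 4 ≤ v → v < 20 → s ≠ p + (v : ℤ) • d) : VOK p d RB {s} where
  one a d' hd' := by
    have := cnt_insert hd' ∅ s a
    rw [cnt_empty] at this
    simpa using this
  far x hx v hv w hw := by
    rw [Finset.mem_singleton] at hx
    subst hx
    have h1 := RB_spec w hw
    by_contra hc
    have h2 : 4 ≤ v ∧ v < 20 := by omega
    obtain ⟨n, rfl⟩ := Int.eq_ofNat_of_zero_le (by omega : 0 ≤ v)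
    exact hs n (by omega) (by omega) hv

/-- Second to move, with a free move and `j` fours before it. -/
theorem Sys.GW (S : Sys A0 X0 N0 Y M t0) {p d : Cell} (hd : IsDir d)
    (hG : ∀ v : ℕ, 10 ≤ v → v < 32 → ¬ Zb (p + (v : ℤ) • d)) (k j : ℕ) : ∀ (u e : ℕ), gchk 10 k j u e = true →
    ∀ E : Finset Cell, im p d e ⊆ E → (∀ c ∈ im p d u, ¬ Y c) → Disjoint (im p d u) (A0 ∪ E) →
    WS (M + k + j) (A0 ∪ E) (im p d u) := by
  have hRA : ∀ w : ℕ, RA.testBit w = true → 4 ≤ w ∧ w < 28 := RA_spec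
  have hRB : ∀ w : ℕ, RB.testBit w = true → 4 ≤ w ∧ w < 28 := fun w h => by have := RB_spec w h; omega
  -- the common part
  have common : ∀ (j u e : ℕ), chk 10 RB k u e = true → ∀ E : Finset Cell, im p d e ⊆ E → (∀ c ∈ im p d u, ¬ Y c) →
      Disjoint (im p d u) (A0 ∪ E) → ∀ s, s ∉ A0 ∪ E → s ∉ im p d u →
      (¬ Near N0 Y s → ∀ v : ℕ, 4 ≤ v → v < 20 → s = p + (v : ℤ) • d → u.testBit v = false → e.testBit v = false →
        W (M + k + j) (A0 ∪ E) (insert s (im p d u))) →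
      ¬ Five (insert s (im p d u)) ∧ W (M + k + j) (A0 ∪ E) (insert s (im p d u)) := by
    intro j u e hc E hE hUY hdis s hsA hsR H
    have h1 := chk_EX (Z := Zb) hd hRB hG (VOK_empty p d RB) k u e hc
    rw [Finset.union_empty] at h1
    have h1 := h1.mono hE
    refine ⟨noFive (fun a d hd ha => h1.wc.le3 hd ha) hdis hsA, ?_⟩
    by_cases hn : Near N0 Y s
    · exact W.le (by omega) (S.nearW h1 hUY (Finset.Subset.refl _) hdis hsA hn)
    · by_cases hv : ∃ v : ℕ, 4 ≤ v ∧ v < 20 ∧ s = p + (v : ℤ) • d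
      · obtain ⟨v, hv4, hv20, hsv⟩ := hv
        apply H hn v hv4 hv20 hsv
        · by_contra hc
          rw [Bool.not_eq_false] at hc
          exact hsR (hsv ▸ (mem_im_iff hd (by omega)).2 hc)
        · by_contra hc
          rw [Bool.not_eq_false] at hc
          exact hsA (Finset.mem_union_right _ (hE (hsv ▸ (mem_im_iff hd (by omega)).2 hc)))
      · push Not at hv
        have h2 := chk_EX (Z := Zb) hd hRB hG (VOK_one hv) k u e hc
        have h2 := h2.mono hE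
        rw [Finset.union_comm, ← Finset.insert_eq] at h2
        exact W.le (by omega) (S.farW h2 hUY (Finset.Subset.refl _) hdis hsA hn)
  have free : ∀ (j u e v : ℕ), v < 20 → chk 10 RA k (u ||| 2 ^ v) e = true → ∀ E : Finset Cell, im p d e ⊆ E →
      (∀ c ∈ im p d u, ¬ Y c) → Disjoint (im p d u) (A0 ∪ E) → p + (v : ℤ) • d ∉ A0 ∪ E → ¬ Near N0 Y (p + (v : ℤ) • d) →
      W (M + k + j) (A0 ∪ E) (insert (p + (v : ℤ) • d) (im p d u)) := by
    intro j u e v hv hc E hE hUY hdis hsA hn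
    have h1 := chk_EX (Z := Zb) hd hRA hG (VOK_empty p d RA) k _ e hc
    rw [Finset.union_empty] at h1
    have h1 := h1.mono hE
    rw [← im_insert (by omega)] at h1
    exact W.le (by omega) (S.farW h1 hUY (Finset.Subset.refl _) hdis hsA hn)
  induction j with
  | zero =>
    intro u e h E hE hUY hdis s hsA hsR
    unfold gchk at h
    rw [Bool.and_eq_true] at h
    apply common 0 u e h.1 E hE hUY hdis s hsA hsR
    intro hn v hv4 hv20 hsv hub heb
    have h2 := all_range h.2 hv20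
    have h3 : Nat.ble v 3 = false := by
      rw [← Bool.not_eq_true]; intro hc; have := Nat.le_of_ble_eq_true hc; omega
    rw [hub, heb, h3, Bool.false_or, Bool.false_or, Bool.false_or, Bool.and_eq_true] at h2
    subst hsv
    exact free 0 u e v hv20 h2.2 E hE hUY hdis hsA hn
  | succ j ih =>
    intro u e h E hE hUY hdis s hsA hsR
    unfold gchk at h
    rw [Bool.and_eq_true] at h
    apply common (j + 1) u e h.1 E hE hUY hdis s hsA hsR
    intro hn v hv4 hv20 hsv hub heb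
    have h2 := all_range h.2 hv20
    have h3 : Nat.ble v 3 = false := by
      rw [← Bool.not_eq_true]; intro hc; have := Nat.le_of_ble_eq_true hc; omega
    rw [hub, heb, h3, Bool.false_or, Bool.false_or, Bool.false_or, Bool.or_eq_true, Bool.and_eq_true, Bool.and_eq_true] at h2
    subst hsv
    rcases h2 with h2 | ⟨h2, h4⟩
    · exact free (j + 1) u e v hv20 h2.2 E hE hUY hdis hsA hn
    · rw [List.any_eq_true] at h4
      obtain ⟨y, hy, h4⟩ := h4
      rw [List.mem_range] at hy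
      simp only [Bool.and_eq_true, Bool.not_eq_true'] at h4
      obtain ⟨⟨⟨h5, h6⟩, h7⟩, h8⟩ := h4
      have hyG := hG y (Nat.le_of_ble_eq_true h5) hy
      have hvG := hG v (Nat.le_of_ble_eq_true h2) (by omega)
      rw [im_insert (by omega)]
      have hdis1 : Disjoint (im p d (u ||| 2 ^ v)) (A0 ∪ E) := by
        rw [← im_insert (by omega), Finset.disjoint_insert_left]; exact ⟨hsA, hdis⟩
      have he : M + k + (j + 1) = (M + k + j) + 1 := by omega
      rw [he]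
      apply play' (m := p + (y : ℤ) • d)
      · intro hc
        have := S.hA _ hc
        unfold Zb at hyG
        omega
      · rw [mem_im_iff hd hy, h6]; simp
      · exact hdis1
      · intro E' hE' hdis'
        apply ih _ _ h8 E'
        · rw [← im_insert hy]
          exact (Finset.insert_subset_insert _ hE).trans hE'
        · intro c hc
          rw [← im_insert (by omega)] at hc
          rcases Finset.mem_insert.1 hc with rfl | hc
          · intro hY
            exact hvG (S.hY _ hY)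
          · exact hUY c hc
        · exact hdis'

/-- Patterns of three stones, with the answers. -/
def pats : List (ℕ × ℕ) :=
  [(2 ^ 8 ||| 2 ^ 9 ||| 2 ^ 10, 7), (2 ^ 8 ||| 2 ^ 9 ||| 2 ^ 11, 7), (2 ^ 8 ||| 2 ^ 9 ||| 2 ^ 12, 7),
   (2 ^ 8 ||| 2 ^ 10 ||| 2 ^ 11, 9), (2 ^ 8 ||| 2 ^ 10 ||| 2 ^ 12, 9), (2 ^ 8 ||| 2 ^ 11 ||| 2 ^ 12, 10)]

theorem pats_ok (q : ℕ × ℕ) (hq : q ∈ pats) : gchk 10 2 1 q.1 (2 ^ q.2) = true ∧ 7 ≤ q.2 ∧ q.2 < 32 ∧ q.1.testBit q.2 = false := by
  simp only [pats, List.mem_cons, List.not_mem_nil, or_false] at hq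
  rcases hq with rfl | rfl | rfl | rfl | rfl | rfl
  · exact ⟨g012, by decide, by decide, by decide⟩
  · exact ⟨g013, by decide, by decide, by decide⟩
  · exact ⟨g014, by decide, by decide, by decide⟩
  · exact ⟨g023, by decide, by decide, by decide⟩
  · exact ⟨g024, by decide, by decide, by decide⟩
  · exact ⟨g034, by decide, by decide, by decide⟩

theorem pats_all' : ∀ i : Fin 5, ∀ j : Fin 5, ∀ l : Fin 5, i ≠ j → i ≠ l → j ≠ l →
    (pats.any fun q => Nat.beq q.1 (2 ^ (8 + i.1 - min i.1 (min j.1 l.1)) ||| 2 ^ (8 + j.1 - min i.1 (min j.1 l.1)) |||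
      2 ^ (8 + l.1 - min i.1 (min j.1 l.1)))) = true := by
  decide +kernel

theorem pats_all (i : ℕ) (hi : i < 5) (j : ℕ) (hj : j < 5) (l : ℕ) (hl : l < 5) (hij : i ≠ j) (hil : i ≠ l) (hjl : j ≠ l) :
    ∃ q ∈ pats, q.1 = 2 ^ (8 + i - min i (min j l)) ||| 2 ^ (8 + j - min i (min j l)) ||| 2 ^ (8 + l - min i (min j l)) := by
  have h := pats_all' ⟨i, hi⟩ ⟨j, hj⟩ ⟨l, hl⟩ (by simpa using hij) (by simpa using hil) (by simpa using hjl)
  rw [List.any_eq_true] at h
  obtain ⟨q, hq, h⟩ := h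
  exact ⟨q, hq, Nat.eq_of_beq_eq_true h⟩

theorem im_three {p d : Cell} {i j l : ℕ} (hi : i < 32) (hj : j < 32) (hl : l < 32) :
    im p d (2 ^ i ||| 2 ^ j ||| 2 ^ l) = {p + (l : ℤ) • d, p + (j : ℤ) • d, p + (i : ℤ) • d} := by
  rw [← im_insert hl, ← im_insert hj]
  have h0 : im p d 0 = ∅ := by
    rw [Finset.eq_empty_iff_forall_notMem]
    intro x hx
    obtain ⟨v, -, h, -⟩ := mem_im.1 hx
    rw [Nat.zero_testBit] at h
    exact Bool.noConfusion h
  have h1 := im_insert (p := p) (d := d) (u := 0) hi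
  rw [Nat.zero_or, h0] at h1
  rw [← h1]
  rfl

theorem d_bound {d : Cell} (hd : IsDir d) {a : Cell} {i : ℕ} (hi : i < 5) (h : 30 ≤ (a + (i : ℤ) • d).1) (z : ℤ)
    (hz : (i : ℤ) - 4 ≤ z) : 26 ≤ (a + z • d).1 ∧ (∀ w : ℤ, z + 2 ≤ w → 28 ≤ (a + w • d).1) ∧ (∀ w : ℤ, z - 1 ≤ w → 25 ≤ (a + w • d).1) := by
  obtain ⟨x, y⟩ := a
  rcases hd with rfl | rfl | rfl | rfl <;>
    simp only [Prod.smul_mk, smul_eq_mul, Prod.mk_add_mk, mul_one, mul_zero, mul_neg] at h ⊢ <;>
    refine ⟨by omega, fun w hw => by omega, fun w hw => by omega⟩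

theorem Sys.root (S : Sys A0 X0 N0 Y M t0) {E : Finset Cell} {u1 u2 : Cell} (h12 : u1 ≠ u2) (h1 : u1 ∉ A0 ∪ E)
    (h2 : u2 ∉ A0 ∪ E) (hx : 30 ≤ u1.1) (hY2 : ¬ Y u2) : WS (M + 4) (A0 ∪ E) {u1, u2} := by
  have hY1 : ¬ Y u1 := fun h => by have := S.hY _ h; omega
  have c2 : ∀ a d : Cell, IsDir d → cnt {u1, u2} a d ≤ 2 := by
    intro a d hd
    have g1 := cnt_insert hd {u2} u1 a
    have g2 := cnt_insert hd ∅ u2 a
    rw [cnt_empty] at g2
    have g3 : (insert u2 ∅ : Finset Cell) = {u2} := rfl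
    rw [g3] at g2
    omega
  have hdis : Disjoint ({u1, u2} : Finset Cell) (A0 ∪ E) := by
    rw [Finset.disjoint_insert_left, Finset.disjoint_singleton_left]
    exact ⟨h1, h2⟩
  have hUY : ∀ c ∈ ({u1, u2} : Finset Cell), ¬ Y c := by
    intro c hc
    rw [Finset.mem_insert, Finset.mem_singleton] at hc
    rcases hc with rfl | rfl
    · exact hY1
    · exact hY2
  intro s hsA hsR
  refine ⟨noFive (fun a d hd ha => by have := c2 a d hd; omega) hdis hsA, ?_⟩
  have hEX : EX Zb 0 E {u1, u2} := fun a d hd _ => c2 a d hd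
  by_cases hn : Near N0 Y s
  · exact W.le (by omega) (S.nearW hEX hUY (Finset.Subset.refl _) hdis hsA hn)
  by_cases h3 : ∀ a d : Cell, IsDir d → Avo E a d → cnt (insert s {u1, u2}) a d ≤ 2
  · exact W.le (by omega) (S.farW (k := 0) h3 hUY (Finset.Subset.refl _) hdis hsA hn)
  push Not at h3
  obtain ⟨a, d, hd, -, h3⟩ := h3
  -- the three stones are in one window
  have hmem : ∀ c ∈ (insert s {u1, u2} : Finset Cell), ∃ k : ℕ, k < 5 ∧ a + (k : ℤ) • d = c := by
    have hcard : (insert s {u1, u2} : Finset Cell).card ≤ 3 := Finset.card_le_three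
    have himg : ((Finset.range 5).filter fun k : ℕ => a + (k : ℤ) • d ∈ (insert s {u1, u2} : Finset Cell)).image
        (fun k : ℕ => a + (k : ℤ) • d) ⊆ insert s {u1, u2} := by
      intro c hc
      rw [Finset.mem_image] at hc
      obtain ⟨k, hk, rfl⟩ := hc
      exact (Finset.mem_filter.1 hk).2
    have hc2 : (((Finset.range 5).filter fun k : ℕ => a + (k : ℤ) • d ∈ (insert s {u1, u2} : Finset Cell)).image
        (fun k : ℕ => a + (k : ℤ) • d)).card = cnt (insert s {u1, u2}) a d := by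
      rw [Finset.card_image_of_injective _ (fun k l h => dir_inj hd h)]
      rfl
    have heq := Finset.eq_of_subset_of_card_le himg (by omega)
    intro c hc
    rw [← heq, Finset.mem_image] at hc
    obtain ⟨k, hk, rfl⟩ := hc
    exact ⟨k, Finset.mem_range.1 (Finset.mem_filter.1 hk).1, rfl⟩
  obtain ⟨i, hi, hi'⟩ := hmem u1 (by simp)
  obtain ⟨j, hj, hj'⟩ := hmem u2 (by simp)
  obtain ⟨l, hl, hl'⟩ := hmem s (by simp)
  have hij : i ≠ j := by rintro rfl; exact h12 (hi'.symm.trans hj')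
  have hil : i ≠ l := by rintro rfl; exact hsR (by rw [← hl', hi']; simp)
  have hjl : j ≠ l := by rintro rfl; exact hsR (by rw [← hl', hj']; simp)
  obtain ⟨q, hq, hq1⟩ := pats_all i hi j hj l hl hij hil hjl
  obtain ⟨hg, hq7, hq32, hqb⟩ := pats_ok q hq
  obtain ⟨m, hm⟩ : ∃ m, m = min i (min j l) := ⟨_, rfl⟩
  rw [← hm] at hq1
  have hmi : m ≤ i := by omega
  have hmj : m ≤ j := by omega
  have hml : m ≤ l := by omega
  obtain ⟨p, hp⟩ : ∃ p, p = a + ((m : ℤ) - 8) • d := ⟨_, rfl⟩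
  have hv : ∀ v : ℕ, p + (v : ℤ) • d = a + ((m : ℤ) - 8 + v) • d := by
    intro v; rw [hp, add_assoc, ← add_smul]
  have hpos : ∀ k : ℕ, m ≤ k → p + ((8 + k - m : ℕ) : ℤ) • d = a + (k : ℤ) • d := by
    intro k hk
    rw [hv]
    congr 2
    push_cast [Nat.cast_sub (show m ≤ 8 + k by omega)]
    omega
  have him : im p d q.1 = insert s {u1, u2} := by
    rw [hq1, im_three (by omega) (by omega) (by omega), hpos i hmi, hpos j hmj, hpos l hml, hi', hj', hl',
      Finset.pair_comm u2 u1]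
  rw [← hi'] at hx
  obtain ⟨b1, b2, b3⟩ := d_bound hd hi hx (m : ℤ) (by omega)
  have hG : ∀ v : ℕ, 10 ≤ v → v < 32 → ¬ Zb (p + (v : ℤ) • d) := by
    intro v hv10 _ hz
    unfold Zb at hz
    rw [hv] at hz
    have := b2 ((m : ℤ) - 8 + v) (by omega)
    omega
  have hdis1 : Disjoint (insert s {u1, u2} : Finset Cell) (A0 ∪ E) := by
    rw [Finset.disjoint_insert_left]; exact ⟨hsA, hdis⟩
  have hsY : ¬ Y s := by
    intro hY
    apply hn
    right
    refine ⟨hY, ?_⟩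
    rw [← hl']
    have := (d_bound hd hi hx (l : ℤ) (by omega)).1
    exact this
  have hUY1 : ∀ c ∈ (insert s {u1, u2} : Finset Cell), ¬ Y c := by
    intro c hc
    rcases Finset.mem_insert.1 hc with rfl | hc
    · exact hsY
    · exact hUY c hc
  rw [← him] at hdis1 hUY1 ⊢
  have he : M + 4 = (M + 2 + 1) + 1 := by omega
  rw [he]
  apply play' (m := p + (q.2 : ℤ) • d)
  · intro hc
    have h4 := S.hA _ hc
    rw [hv] at h4
    have := b3 ((m : ℤ) - 8 + q.2) (by omega)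
    omega
  · rw [mem_im_iff hd hq32, hqb]; simp
  · exact hdis1
  · intro E' hE' hdis'
    apply S.GW hd hG 2 1 q.1 (2 ^ q.2) hg E' _ hUY1 hdis'
    intro c hc
    obtain ⟨v, hv32, hvb, rfl⟩ := mem_im.1 hc
    rw [Nat.testBit_two_pow, decide_eq_true_eq] at hvb
    rw [← hvb]
    exact hE' (Finset.mem_insert_self _ _)

theorem far_far {A0 : Finset Cell} {X0 N0 : ℕ} {Y : Cell → Prop} (hX : Rep X0 A0 ∅) (hN : Chk X0 2 N0)
    (hA : ∀ c ∈ A0, c.1 ≤ 24) (hY : ∀ c, Y c → Inb c ∧ c.1 ≤ 27) (h0 : ∀ i < 2, ∀ c, zn (N0 >>> 64) i c → Y c)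
    (hnear : ∀ s, s ∉ A0 → ((∃ i < 2, zn (N0 >>> 64) i s) ∨ (Y s ∧ 26 ≤ s.1)) →
      ∃ (X N : ℕ) (B : Finset Cell), Rep X A0 B ∧ s ∈ B ∧ Chk X 2 N ∧ ∀ i < 2, ∀ c, zn (N >>> 64) i c → Y c) :
    ∃ n, ∀ (E : Finset Cell) (u1 u2 : Cell), u1 ≠ u2 → u1 ∉ A0 ∪ E → u2 ∉ A0 ∪ E → 30 ≤ u1.1 → ¬ Y u2 →
      WS n (A0 ∪ E) {u1, u2} := by
  obtain ⟨t0, ht0⟩ := hN
  have hC : ∀ n : ℕ, ∃ M, cl n ∉ A0 → Near N0 Y (cl n) → Cert A0 Y M (cl n) := by
    intro n
    by_cases h1 : cl n ∉ A0 ∧ Near N0 Y (cl n)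
    · obtain ⟨X, N, B, hX', hs, ⟨t, ht'⟩, hz⟩ := hnear (cl n) h1.1 h1.2
      exact ⟨ht t, fun _ _ => ⟨X, N, B, t, hX', hs, ht', hz, le_rfl⟩⟩
    · exact ⟨0, fun h2 h3 => absurd ⟨h2, h3⟩ h1⟩
  choose f hf using hC
  refine ⟨max (ht t0) ((Finset.range 1024).sup f) + 4, fun E u1 u2 h12 h1 h2 hx hY2 => ?_⟩
  have S : Sys A0 X0 N0 Y (max (ht t0) ((Finset.range 1024).sup f)) t0 := by
    refine ⟨hX, ht0, hA, fun c hc => (hY c hc).2, h0, le_max_left _ _, fun s hs hn => ?_⟩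
    have hin : Inb s := by
      rcases hn with ⟨i, -, h⟩ | ⟨h, -⟩
      · exact h.1
      · exact (hY s h).1
    have h3 := hf (ix s)
    rw [cl_ix hin] at h3
    obtain ⟨X, N, B, t, hX', hs', ht', hz, hM⟩ := h3 hs hn
    refine ⟨X, N, B, t, hX', hs', ht', hz, hM.trans ?_⟩
    exact le_trans (Finset.le_sup (Finset.mem_range.2 (ix_lt hin))) (le_max_right _ _)
  exact S.root h12 h1 h2 hx hY2

end Pool.Agent.H10.Five
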