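import Pool.Agent.H94.Five.Msk
import Pool.Agent.H10.Five.Exc5

set_option autoImplicit false
set_option linter.all false
set_option maxRecDepth 10000
set_option exponentiation.threshold 20000

/-! The game `EX1` of scope 1, by computation. -/

namespace Pool.Agent.H10.Five

open Pool.Agent.H79.Five Pool.Agent.H94.Five.M

/-- What to do after a further stone `s`: there is a plan for scope 2, or it is a far stone answered by `y`. -/
inductive Q1
| nil : Q1
| near (s : ℕ) (q : Q0) (rest : Q1) : Q1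
| far (s y : ℕ) (q : Q0) (sub rest : Q1) : Q1

def tm1 : Q1 → ℕ
  | .nil => 0
  | .near s _ rest => Nat.lor (bit s) (tm1 rest)
  | .far s _ _ _ rest => Nat.lor (bit s) (tm1 rest)

def dp1 : Q1 → ℕ
  | .nil => 0
  | .near _ q rest => max (dp q) (dp1 rest)
  | .far _ _ q sub rest => max (max (dp q) (dp1 sub) + 1) (dp1 rest)

/-- The free cells of the windows with two stones. -/
def wc1 (X : ℕ) : ℕ := Nat.land (cel X c10) (emp X)

/-- The cells which have to be outside `Z`. -/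
def om1 : Q1 → ℕ → ℕ
  | .nil, _ => 0
  | .near _ q rest, X => Nat.lor (am q) (om1 rest X)
  | .far s y q sub rest, X =>
    Nat.lor (Nat.lor (Nat.lor (bit s) (bit y)) (Nat.lor (am q) (wc1 (plA (Nat.lor X (bit s)) y))))
      (Nat.lor (om1 sub (plA (Nat.lor X (bit s)) y)) (om1 rest X))

/-- The listed stones suffice. -/
def cv1 (q : Q0) (t X : ℕ) : Bool :=
  Bool.and (dOk X (fm q))
    (Nat.beq (Nat.lor (Nat.land (Nat.lor (cel (Nat.lor X (fm q)) c10) (am q)) (emp X)) t) t)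

def ent1 : Q1 → ℕ → Bool
  | .nil, _ => true
  | .near s q rest, X => Bool.and (Bool.and (fre X s) (lev q (Nat.lor X (bit s)))) (ent1 rest X)
  | .far s y q sub rest, X =>
    Bool.and (Bool.and (fre X s) (fre (Nat.lor X (bit s)) y))
      (Bool.and (Bool.and (Bool.and (lev q (plA (Nat.lor X (bit s)) y)) (cv1 q (tm1 sub) (plA (Nat.lor X (bit s)) y)))
        (ent1 sub (plA (Nat.lor X (bit s)) y))) (ent1 rest X))

def nod1 (q : Q0) (p : Q1) (X : ℕ) : Bool := Bool.and (Bool.and (lev q X) (cv1 q (tm1 p) X)) (ent1 p X)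

def on1 (q : Q0) (p : Q1) (X : ℕ) : ℕ := Nat.lor (Nat.lor (am q) (wc1 X)) (om1 p X)

theorem ent1_get (p : Q1) : ∀ {X : ℕ} {E U : Finset Cell}, Rep X E U → ent1 p X = true → ∀ c ∈ cells (tm1 p),
    (∃ (s : ℕ) (q : Q0), c = cl s ∧ fre X s = true ∧ lev q (Nat.lor X (bit s)) = true ∧ dp q ≤ dp1 p ∧
      (∀ c ∈ cells (am q), c ∈ cells (om1 p X))) ∨
    (∃ (s y : ℕ) (q : Q0) (sub : Q1), c = cl s ∧ fre X s = true ∧ fre (Nat.lor X (bit s)) y = true ∧
      nod1 q sub (plA (Nat.lor X (bit s)) y) = true ∧ max (dp q) (dp1 sub) + 1 ≤ dp1 p ∧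
      (∀ c ∈ cells (on1 q sub (plA (Nat.lor X (bit s)) y)), c ∈ cells (om1 p X)) ∧ cl s ∈ cells (om1 p X) ∧
      cl y ∈ cells (om1 p X)) := by
  induction p with
  | nil =>
    intro X E U hX h c hc
    have := (mem_cells.1 hc).2
    change (0 : ℕ).testBit _ = true at this
    rw [Nat.zero_testBit] at this
    exact absurd this (by simp)
  | near s q rest ih =>
    intro X E U hX h c hc
    obtain ⟨h1, h2⟩ := andb (a := Bool.and (fre X s) (lev q (Nat.lor X (bit s)))) h
    obtain ⟨hf, hl⟩ := andb h1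
    have hs := (fre_spec hX hf).1
    rcases mem_lor.1 hc with hc | hc
    · rw [mem_bit hs] at hc
      exact Or.inl ⟨s, q, hc, hf, hl, le_max_left _ _, fun c hc => mem_lor.2 (Or.inl hc)⟩
    · rcases ih hX h2 c hc with ⟨s', q', g1, g2, g3, g4, g5⟩ | ⟨s', y', q', sub', g1, g2, g3, g4, g5, g6, g7, g8⟩
      · exact Or.inl ⟨s', q', g1, g2, g3, g4.trans (le_max_right _ _), fun c hc => mem_lor.2 (Or.inr (g5 c hc))⟩
      · exact Or.inr ⟨s', y', q', sub', g1, g2, g3, g4, g5.trans (le_max_right _ _),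
          fun c hc => mem_lor.2 (Or.inr (g6 c hc)), mem_lor.2 (Or.inr g7), mem_lor.2 (Or.inr g8)⟩
  | far s y q sub rest _ ih =>
    intro X E U hX h c hc
    obtain ⟨h1, h2⟩ := andb (a := Bool.and (fre X s) (fre (Nat.lor X (bit s)) y)) h
    obtain ⟨hf, hg⟩ := andb h1
    obtain ⟨h3, h4⟩ := andb h2
    have hs := (fre_spec hX hf).1
    have hy := (fre_spec (hX.plB hf) hg).1
    rcases mem_lor.1 hc with hc | hc
    · rw [mem_bit hs] at hc
      refine Or.inr ⟨s, y, q, sub, hc, hf, hg, h3, le_max_left _ _, ?_, ?_, ?_⟩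
      · intro c hc
        rcases mem_lor.1 hc with hc | hc
        · exact mem_lor.2 (Or.inl (mem_lor.2 (Or.inr hc)))
        · exact mem_lor.2 (Or.inr (mem_lor.2 (Or.inl hc)))
      · exact mem_lor.2 (Or.inl (mem_lor.2 (Or.inl (mem_lor.2 (Or.inl ((mem_bit hs).2 rfl))))))
      · exact mem_lor.2 (Or.inl (mem_lor.2 (Or.inl (mem_lor.2 (Or.inr ((mem_bit hy).2 rfl))))))
    · rcases ih hX h4 c hc with ⟨s', q', g1, g2, g3, g4, g5⟩ | ⟨s', y', q', sub', g1, g2, g3, g4, g5, g6, g7, g8⟩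
      · exact Or.inl ⟨s', q', g1, g2, g3, g4.trans (le_max_right _ _),
          fun c hc => mem_lor.2 (Or.inr (mem_lor.2 (Or.inr (g5 c hc))))⟩
      · exact Or.inr ⟨s', y', q', sub', g1, g2, g3, g4, g5.trans (le_max_right _ _),
          fun c hc => mem_lor.2 (Or.inr (mem_lor.2 (Or.inr (g6 c hc)))), mem_lor.2 (Or.inr (mem_lor.2 (Or.inr g7))),
          mem_lor.2 (Or.inr (mem_lor.2 (Or.inr g8)))⟩

theorem fm01 (q : Q0) : ∀ n, dg (fm q) n = 0 ∨ dg (fm q) n = 1 := by
  induction q with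
  | nil => intro n; left; exact dg_zero n
  | cons s y sub rest ih1 ih2 =>
    intro n
    change dg (bit s ||| (fm sub ||| fm rest)) n = 0 ∨ dg (bit s ||| (fm sub ||| fm rest)) n = 1
    rw [dg_lor, dg_lor, dg_bit]
    split_ifs <;> rcases ih1 n with ih | ih <;> rcases ih2 n with ih' | ih' <;> rw [ih, ih'] <;> decide

variable {Z : Cell → Prop}

theorem wc1_spec {X : ℕ} {E U : Finset Cell} (hX : Rep X E U) (hs : saf X = true) (hZ : ∀ c ∈ cells (wc1 X), ¬ Z c) :
    WC1 Z E U := by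
  intro a d hd hE
  have h3 := saf_spec hX hs hd hE
  by_cases h2 : cnt U a d ≤ 1
  · exact Or.inl h2
  · refine Or.inr ⟨h3, fun l hl => ?_⟩
    by_cases hU : a + (l : ℤ) • d ∈ U
    · exact Or.inl hU
    · right
      have h4 := cel10 hX hd hE (by omega) hl
      exact hZ _ (mem_land.2 ⟨h4, mem_emp hX (mem_cells.1 h4).1 (hE l hl) hU⟩)

/-- A further stone which is not listed. -/
theorem cv1_far {q : Q0} {t X k : ℕ} {E U : Finset Cell} (hX : Rep X E U) (hq : lev q X = true) (hc : cv1 q t X = true)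
    (hk : dp q ≤ k) (hZ : ∀ c ∈ cells (am q), ¬ Z c) {s : Cell} (hsE : s ∉ E) (hst : s ∉ cells t) :
    EX Z k E (insert s U) := by
  obtain ⟨hO, hc⟩ := andb hc
  obtain ⟨hX2, h1, h2⟩ := hX.lor (fm01 q) hO
  by_cases hsU : s ∈ U
  · rw [Finset.insert_eq_of_mem hsU]
    exact lev_EX k hX hq hk hZ
  · have hn : ∀ {c : Cell}, c ∈ cells (Nat.lor (cel (Nat.lor X (fm q)) c10) (am q)) → c ≠ s := by
      rintro c hc' rfl
      exact hst (lsub hc (mem_land.2 ⟨hc', mem_emp hX (mem_cells.1 hc').1 hsE hsU⟩))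
    apply lev_EXi (C := U ∪ cells (fm q)) k hX hq hk hZ hsE hsU
    · exact fun h => hn (mem_lor.2 (Or.inr h)) rfl
    · exact Finset.subset_union_left
    · exact fun c hc => Finset.mem_union_right _ hc
    · intro a d hd hE l hl hls
      by_contra hcc
      have h4 := cel10 hX2 hd hE (by omega) hl
      rw [hls] at h4
      exact hn (mem_lor.2 (Or.inl h4)) rfl

theorem nod1_EX1 (k : ℕ) : ∀ {q : Q0} {p : Q1} {X : ℕ} {E U : Finset Cell}, Rep X E U → nod1 q p X = true →
    max (dp q) (dp1 p) ≤ k → (∀ c ∈ cells (on1 q p X), ¬ Z c) → EX1 Z k E U := by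
  induction k with
  | zero =>
    intro q p X E U hX h hk hZ
    obtain ⟨h1, h2⟩ := andb h
    obtain ⟨hq, hc⟩ := andb h1
    have hsf := (andb (andb hq).1).1
    have hZa : ∀ c ∈ cells (am q), ¬ Z c := fun c hc => hZ c (mem_lor.2 (Or.inl (mem_lor.2 (Or.inl hc))))
    have hZw : ∀ c ∈ cells (wc1 X), ¬ Z c := fun c hc => hZ c (mem_lor.2 (Or.inl (mem_lor.2 (Or.inr hc))))
    have hZo : ∀ c ∈ cells (om1 p X), ¬ Z c := fun c hc => hZ c (mem_lor.2 (Or.inr hc))
    refine ⟨wc1_spec hX hsf hZw, fun s hsE => ?_⟩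
    by_cases hst : s ∈ cells (tm1 p)
    · rcases ent1_get p hX h2 s hst with ⟨s', q', g1, g2, g3, g4, g5⟩ | ⟨s', y', q', sub', g1, g2, g3, g4, g5, g6, g7, g8⟩
      · rw [g1]
        exact lev_EX 0 (hX.plB g2) g3 (g4.trans ((le_max_right _ _).trans hk)) fun c hc => hZo c (g5 c hc)
      · have := (le_max_right (dp q) (dp1 p)).trans hk
        omega
    · exact cv1_far hX hq hc ((le_max_left _ _).trans hk) hZa hsE hst
  | succ k ih =>
    intro q p X E U hX h hk hZ
    obtain ⟨h1, h2⟩ := andb h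
    obtain ⟨hq, hc⟩ := andb h1
    have hsf := (andb (andb hq).1).1
    have hZa : ∀ c ∈ cells (am q), ¬ Z c := fun c hc => hZ c (mem_lor.2 (Or.inl (mem_lor.2 (Or.inl hc))))
    have hZw : ∀ c ∈ cells (wc1 X), ¬ Z c := fun c hc => hZ c (mem_lor.2 (Or.inl (mem_lor.2 (Or.inr hc))))
    have hZo : ∀ c ∈ cells (om1 p X), ¬ Z c := fun c hc => hZ c (mem_lor.2 (Or.inr hc))
    refine ⟨wc1_spec hX hsf hZw, fun s hsE => ?_⟩
    by_cases hst : s ∈ cells (tm1 p)
    · rcases ent1_get p hX h2 s hst with ⟨s', q', g1, g2, g3, g4, g5⟩ | ⟨s', y', q', sub', g1, g2, g3, g4, g5, g6, g7, g8⟩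
      · rw [g1]
        exact Or.inl (lev_EX (k + 1) (hX.plB g2) g3 (g4.trans ((le_max_right _ _).trans hk)) fun c hc => hZo c (g5 c hc))
      · right
        have hs := fre_spec hX g2
        have hX' := hX.plB g2
        have hy := fre_spec hX' g3
        have h5 := (le_max_right (dp q) (dp1 p)).trans hk
        rw [g1]
        exact ⟨hs.2.2.2, hZo _ g7, cl y', hy.2.2.1, hy.2.2.2, hZo _ g8,
          ih (hX'.plA g3) g4 (by omega) fun c hc => hZo c (g6 c hc)⟩
    · exact Or.inl (cv1_far hX hq hc ((le_max_left _ _).trans hk) hZa hsE hst)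

/-! Certificates at scope 1 -/

/-- The `D`-cells of a certificate at scope 1. -/
noncomputable def sup1 (t : T) : ℕ :=
  @T.rec (fun _ => ℕ) (nat_lit 0) (fun _ _ => nat_lit 0) (fun _ _ _ _ _ => nat_lit 0) (fun _ _ _ _ r => r)
    (fun _ _ r => r)
    (fun z D k _ rk rn => Nat.lor (Nat.lor (bits D) (@Nat.rec (fun _ => ℕ) rk (fun _ _ => supN k) z)) rn) t

theorem sup2_DZ (t : T) : Sp Z (supN t) → DZ2 Z t := by
  induction t with
  | e => exact fun _ => trivial
  | v w c => exact fun _ => trivial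
  | d m w c w2 c2 => exact fun _ => trivial
  | r m w c k ih => exact fun h => ih h
  | q m a ih => exact fun h => ih h
  | a z D k n ihk ihn =>
    intro h
    cases z with
    | zero =>
      have h1 := Sp.or (M := Nat.lor (bits D) (supN k)) (N := supN n) h
      have h2 := Sp.or h1.1
      exact ⟨fun _ => ⟨h2.1, ihk h2.2⟩, ihn h1.2⟩
    | succ z =>
      exact ⟨fun h0 => absurd h0 (Nat.succ_ne_zero z), ihn h⟩

theorem sup1_DZ (t : T) : Sp Z (sup1 t) → DZ1 Z t := by
  induction t with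
  | e => exact fun _ => trivial
  | v w c => exact fun _ => trivial
  | d m w c w2 c2 => exact fun _ => trivial
  | r m w c k ih => exact fun h => ih h
  | q m a ih => exact fun h => ih h
  | a z D k n ihk ihn =>
    intro h
    cases z with
    | zero =>
      have h1 := Sp.or (M := Nat.lor (bits D) (sup1 k)) (N := sup1 n) h
      have h2 := Sp.or h1.1
      exact ⟨h2.1, fun _ => ihk h2.2, fun h0 => absurd rfl h0, ihn h1.2⟩
    | succ z =>
      have h1 := Sp.or (M := Nat.lor (bits D) (supN k)) (N := sup1 n) h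
      have h2 := Sp.or h1.1
      exact ⟨h2.1, fun h0 => absurd h0 (Nat.succ_ne_zero z), fun _ => sup2_DZ k h2.2, ihn h1.2⟩

/-- The position `A`, `B` of the family at scope 1: First wins with unknown stones outside `z0` in the
presence of the game `EX1`. -/
def G1 (Z : Cell → Prop) (A B : Finset Cell) (z0 : ℕ) : Prop :=
  ∃ n, ∀ (k : ℕ) (E U R : Finset Cell), EX1 Z k E U → (∀ c ∈ U, c ∉ cells z0) → R ⊆ B ∪ U → Disjoint R (A ∪ E) →
    W (n + k) (A ∪ E) R

/-- The certificate `t` at scope 1 has its zone inside `z0`, and its support inside `zs`. -/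
noncomputable def k1 (t : T) (X z0 zs : ℕ) : ℕ :=
  bnd (F t false X 1 0 0 0) fun p => grd (Bool.and (Nat.beq (Nat.lor (Nat.shiftRight p 64) z0) z0)
    (Nat.beq (Nat.lor (Nat.lor z0 (sup1 t)) zs) zs)) 1

/-- Certificates at scope 1. -/
def C2 (X z0 zs : ℕ) : Prop := ∀ A B, Rep X A B → (∀ c ∈ A, c ∈ cells zs) → (∀ c ∈ B, c ∈ cells zs) →
  G1 (fun c => c ∈ cells zs) A B z0

theorem C2.of {X z0 zs : ℕ} (t : T) (h : k1 t X z0 zs = 1) : C2 X z0 zs := by
  intro A B hX hA hB
  obtain ⟨p, hp, h1⟩ := bnd_eq (N := 0) h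
  obtain ⟨h2, -⟩ := grd_eq (N := 0) h1
  obtain ⟨h2, h3⟩ := andb h2
  have h2 := Nat.eq_of_beq_eq_true h2
  change (p >>> 64) ||| z0 = z0 at h2
  have hz : ∀ c, zn (p >>> 64) 0 c → c ∈ cells z0 := by
    intro c hz
    rw [mem_cells]
    refine ⟨hz.1, ?_⟩
    have := hz.2
    rw [Nat.mul_zero, Nat.zero_add] at this
    rw [← h2, Nat.testBit_or, this]; rfl
  have hzs : ∀ c, c ∈ cells z0 → c ∈ cells zs := fun c hc => lsub h3 (mem_lor.2 (Or.inl hc))
  refine ⟨ht t, fun k E U R hE hU hR hdis => ?_⟩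
  exact (sound1 t (sup1_DZ t fun c hc => lsub h3 (mem_lor.2 (Or.inr hc)))).1 X p 0 0 0 A B hX hp
    (fun c hc => hzs c (hz c hc)) hA hB k E U R hE (fun c hc h => hU c hc (hz c h)) hR hdis

end Pool.Agent.H10.Five
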