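import Pool.Agent.H10.Five.Exc

set_option autoImplicit false
set_option linter.all false
set_option maxRecDepth 10000

/-! The game on one line, with stones as bits. -/

namespace Pool.Agent.H10.Five

open Pool.Agent.H79.Five

/-- The cells `p + v d` with bit `v` set. -/
def im (p d : Cell) (u : ℕ) : Finset Cell :=
  ((Finset.range 32).filter fun v : ℕ => u.testBit v = true).image fun v : ℕ => p + (v : ℤ) • d

/-- Number of stones in the window `t, ..., t + 4`. -/
def c1 (u t : ℕ) : ℕ :=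
  u / 2 ^ t % 2 + u / 2 ^ (t + 1) % 2 + u / 2 ^ (t + 2) % 2 + u / 2 ^ (t + 3) % 2 + u / 2 ^ (t + 4) % 2

def fr (e t : ℕ) : Bool := Nat.beq (e / 2 ^ t % 32) 0

def gd (u G t : ℕ) : Bool :=
  (u.testBit t || Nat.ble G t) && (u.testBit (t + 1) || Nat.ble G (t + 1)) && (u.testBit (t + 2) || Nat.ble G (t + 2)) &&
    (u.testBit (t + 3) || Nat.ble G (t + 3)) && (u.testBit (t + 4) || Nat.ble G (t + 4))

def all3 (u e : ℕ) : Bool := (List.range 28).all fun t => !fr e t || Nat.ble (c1 u t) 3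

/-- Only fours of Second are left. -/
def chk (G rg : ℕ) : ℕ → ℕ → ℕ → Bool
  | 0, u, e => Nat.beq (u ||| rg) rg && (List.range 28).all fun t => !fr e t || Nat.ble (c1 u t) 2
  | k + 1, u, e => Nat.beq (u ||| rg) rg &&
      ((List.range 28).all fun t => !fr e t || Nat.ble (c1 u t) 2 || (Nat.ble (c1 u t) 3 && gd u G t)) &&
      (List.range 32).all fun s => u.testBit s || e.testBit s || all3 (u ||| 2 ^ s) e ||
        (Nat.ble G s && (List.range 32).any fun y => Nat.ble G y && rg.testBit y && !(u ||| 2 ^ s).testBit y &&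
          !e.testBit y && chk G rg k (u ||| 2 ^ s) (e ||| 2 ^ y))

def RA : ℕ := 0xFFFFFF0
def RB : ℕ := 0xFF00

/-- Second still has a free move. -/
def gchk (G k : ℕ) : ℕ → ℕ → ℕ → Bool
  | 0, u, e => chk G RB k u e && (List.range 20).all fun s => Nat.ble s 3 || u.testBit s || e.testBit s ||
      (all3 (u ||| 2 ^ s) e && chk G RA k (u ||| 2 ^ s) e)
  | j + 1, u, e => chk G RB k u e && (List.range 20).all fun s => Nat.ble s 3 || u.testBit s || e.testBit s ||
      (all3 (u ||| 2 ^ s) e && chk G RA k (u ||| 2 ^ s) e) ||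
      (Nat.ble G s && (List.range 32).any fun y => Nat.ble G y && !(u ||| 2 ^ s).testBit y &&
          !e.testBit y && gchk G k j (u ||| 2 ^ s) (e ||| 2 ^ y))

theorem mem_im {p d x : Cell} {u : ℕ} : x ∈ im p d u ↔ ∃ v : ℕ, v < 32 ∧ u.testBit v = true ∧ x = p + (v : ℤ) • d := by
  unfold im
  rw [Finset.mem_image]
  constructor
  · rintro ⟨v, hv, rfl⟩
    rw [Finset.mem_filter, Finset.mem_range] at hv
    exact ⟨v, hv.1, hv.2, rfl⟩
  · rintro ⟨v, hv, h, rfl⟩
    exact ⟨v, by rw [Finset.mem_filter, Finset.mem_range]; exact ⟨hv, h⟩, rfl⟩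

theorem on_inj {p d : Cell} (hd : IsDir d) {v w : ℤ} (h : p + v • d = p + w • d) : v = w := by
  have h2 : v • d = w • d := add_left_cancel h
  rcases hd with rfl | rfl | rfl | rfl <;> simp [Prod.ext_iff] at h2 <;> omega

theorem mem_im_iff {p d : Cell} (hd : IsDir d) {u v : ℕ} (hv : v < 32) : p + (v : ℤ) • d ∈ im p d u ↔ u.testBit v = true := by
  rw [mem_im]
  constructor
  · rintro ⟨w, hw, h, he⟩
    have := on_inj hd he
    have : v = w := by omega
    rw [this]; exact h
  · exact fun h => ⟨v, hv, h, rfl⟩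

theorem tb_ins (u s v : ℕ) : (u ||| 2 ^ s).testBit v = (u.testBit v || decide (s = v)) := by
  rw [Nat.testBit_or, Nat.testBit_two_pow]

theorem im_insert {p d : Cell} {u s : ℕ} (hs : s < 32) :
    insert (p + (s : ℤ) • d) (im p d u) = im p d (u ||| 2 ^ s) := by
  ext x
  rw [Finset.mem_insert, mem_im, mem_im]
  constructor
  · rintro (h | ⟨v, hv, h, hx⟩)
    · exact ⟨s, hs, by rw [tb_ins]; simp, h⟩
    · exact ⟨v, hv, by rw [tb_ins, h]; rfl, hx⟩
  · rintro ⟨v, hv, h, hx⟩
    rw [tb_ins, Bool.or_eq_true, decide_eq_true_eq] at h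
    rcases h with h | h
    · exact Or.inr ⟨v, hv, h, hx⟩
    · left; rw [hx, h]

theorem shift {p d : Cell} (t : ℤ) (k : ℕ) : p + t • d + (k : ℤ) • d = p + (t + k) • d := by
  rw [add_smul, add_assoc]

theorem cnt_im {p d : Cell} (hd : IsDir d) {u t : ℕ} (ht : t < 28) : cnt (im p d u) (p + (t : ℤ) • d) d = c1 u t := by
  have h : ∀ k : ℕ, k < 5 → (p + (t : ℤ) • d + (k : ℤ) • d ∈ im p d u ↔ u.testBit (t + k) = true) := by
    intro k hk
    rw [shift, show (t : ℤ) + (k : ℤ) = ((t + k : ℕ) : ℤ) by push_cast; rfl]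
    exact mem_im_iff hd (by omega)
  have h' : ∀ k : ℕ, k < 5 → (if p + (t : ℤ) • d + (k : ℤ) • d ∈ im p d u then 1 else 0) = u / 2 ^ (t + k) % 2 := by
    intro k hk
    have h1 := h k hk
    rw [Nat.testBit_eq_decide_div_mod_eq, decide_eq_true_eq] at h1
    by_cases hc : u / 2 ^ (t + k) % 2 = 1
    · rw [if_pos (h1.2 hc), hc]
    · rw [if_neg (fun h => hc (h1.1 h))]; omega
  rw [cnt_sum, h' 0 (by norm_num), h' 1 (by norm_num), h' 2 (by norm_num), h' 3 (by norm_num), h' 4 (by norm_num)]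
  rfl

/-- `V` has at most one cell in each window, and none in the windows that meet the range `rg`. -/
structure VOK (p d : Cell) (rg : ℕ) (V : Finset Cell) : Prop where
  one : ∀ a d' : Cell, IsDir d' → cnt V a d' ≤ 1
  far : ∀ x ∈ V, ∀ v : ℤ, x = p + v • d → ∀ w : ℕ, rg.testBit w = true → v + 5 ≤ w ∨ w + 5 ≤ v

theorem off_line {p d : Cell} (hd : IsDir d) {a d' : Cell} (hd' : IsDir d') {k l : ℕ} (hk : k < 5) (hl : l < 5) (hkl : k ≠ l)
    {v w : ℤ} (h1 : a + (k : ℤ) • d' = p + v • d) (h2 : a + (l : ℤ) • d' = p + w • d) : d' = d ∧ ∃ t : ℤ, a = p + t • d := by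
  obtain ⟨a1, a2⟩ := a
  obtain ⟨p1, p2⟩ := p
  rcases hd with rfl | rfl | rfl | rfl <;> rcases hd' with rfl | rfl | rfl | rfl <;>
    simp [Prod.ext_iff] at h1 h2 ⊢ <;> first | omega | exact ⟨v - (k : ℤ), by omega, by omega⟩ | exact ⟨v - (k : ℤ), by omega⟩ |
      exact ⟨⟨v - (k : ℤ), by omega⟩, by omega⟩ | exact ⟨by omega, v - (k : ℤ), by omega⟩

theorem cnt_two {S : Finset Cell} {a d : Cell} (h : 2 ≤ cnt S a d) :
    ∃ k l : ℕ, k < 5 ∧ l < 5 ∧ k ≠ l ∧ a + (k : ℤ) • d ∈ S ∧ a + (l : ℤ) • d ∈ S := by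
  unfold cnt at h
  obtain ⟨k, hk, l, hl, hkl⟩ := Finset.one_lt_card.1 h
  rw [Finset.mem_filter, Finset.mem_range] at hk hl
  exact ⟨k, l, hk.1, hl.1, hkl, hk.2, hl.2⟩

/-- Windows with three stones are on the line. -/
theorem wcase {p d : Cell} (hd : IsDir d) {rg u : ℕ} (hrg : ∀ w : ℕ, rg.testBit w = true → 4 ≤ w ∧ w < 28)
    (hu : ∀ w : ℕ, u.testBit w = true → rg.testBit w = true) {V : Finset Cell} (hV : VOK p d rg V) (a : Cell) {d' : Cell}
    (hd' : IsDir d') : cnt (im p d u ∪ V) a d' ≤ 2 ∨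
      ∃ t : ℕ, t < 28 ∧ a = p + (t : ℤ) • d ∧ d' = d ∧ ∀ l : ℕ, l < 5 → a + (l : ℤ) • d' ∉ V := by
  have h1 := cnt_union (im p d u) V a d'
  have h2 := hV.one a d' hd'
  by_cases h3 : cnt (im p d u) a d' ≤ 1
  · left; omega
  · right
    obtain ⟨k, l, hk, hl, hkl, hkm, hlm⟩ := cnt_two (by omega : 2 ≤ cnt (im p d u) a d')
    obtain ⟨v, hv, hvb, hve⟩ := mem_im.1 hkm
    obtain ⟨w, hw, hwb, hwe⟩ := mem_im.1 hlm
    obtain ⟨hdd, t, ht⟩ := off_line hd hd' hk hl hkl hve hwe
    subst hdd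
    rw [ht, shift] at hve hwe
    have e1 := on_inj hd hve
    have e2 := on_inj hd hwe
    have r1 := hrg v (hu v hvb)
    have r2 := hrg w (hu w hwb)
    refine ⟨t.toNat, by omega, ?_, rfl, ?_⟩
    · rw [ht, Int.toNat_of_nonneg (by omega)]
    · intro m hm hmV
      rw [ht, shift] at hmV
      have h5 := hV.far _ hmV _ rfl v (hu v hvb)
      omega

theorem cnt_V {S V : Finset Cell} {a d : Cell} (h : ∀ l : ℕ, l < 5 → a + (l : ℤ) • d ∉ V) : cnt (S ∪ V) a d = cnt S a d := by
  unfold cnt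
  congr 1
  apply Finset.filter_congr
  intro l hl
  rw [Finset.mem_union]
  exact ⟨fun h' => h'.resolve_right (h l (Finset.mem_range.1 hl)), Or.inl⟩

theorem fr_of_avo {p d : Cell} (hd : IsDir d) {e t : ℕ} (ht : t < 28) (h : Avo (im p d e) (p + (t : ℤ) • d) d) : fr e t = true := by
  have h' : ∀ k : ℕ, k < 5 → e.testBit (t + k) = false := by
    intro k hk
    have h1 := h k hk
    rw [shift, show (t : ℤ) + (k : ℤ) = ((t + k : ℕ) : ℤ) by push_cast; rfl, mem_im_iff hd (by omega)] at h1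
    simpa using h1
  have h2 : e / 2 ^ t % 2 ^ 5 = 0 := by
    apply Nat.eq_of_testBit_eq
    intro i
    rw [Nat.testBit_mod_two_pow, Nat.testBit_div_two_pow, Nat.zero_testBit]
    by_cases hi : i < 5
    · rw [Nat.add_comm i t, h' i hi]; simp
    · simp [hi]
  unfold fr
  rw [show (32 : ℕ) = 2 ^ 5 by norm_num, h2]; rfl

theorem rg_sub {u rg : ℕ} (h : Nat.beq (u ||| rg) rg = true) (w : ℕ) (hw : u.testBit w = true) : rg.testBit w = true := by
  have h1 := Nat.eq_of_beq_eq_true h
  rw [← h1, Nat.testBit_or, hw]; rfl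

theorem gd_spec {u G t l : ℕ} (h : gd u G t = true) (hl : l < 5) : u.testBit (t + l) = true ∨ G ≤ t + l := by
  unfold gd at h
  simp only [Bool.and_eq_true, Bool.or_eq_true] at h
  obtain ⟨⟨⟨⟨h0, h1⟩, h2⟩, h3⟩, h4⟩ := h
  interval_cases l
  · exact h0.imp id fun h => Nat.le_of_ble_eq_true h
  · exact h1.imp id fun h => Nat.le_of_ble_eq_true h
  · exact h2.imp id fun h => Nat.le_of_ble_eq_true h
  · exact h3.imp id fun h => Nat.le_of_ble_eq_true h
  · exact h4.imp id fun h => Nat.le_of_ble_eq_true h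

theorem all_range {n : ℕ} {f : ℕ → Bool} (h : (List.range n).all f = true) {t : ℕ} (ht : t < n) : f t = true :=
  List.all_eq_true.1 h t (List.mem_range.2 ht)

/-- After a stone on the line. -/
theorem ins3 {p d : Cell} (hd : IsDir d) {rg u e s : ℕ} (hrg : ∀ w : ℕ, rg.testBit w = true → 4 ≤ w ∧ w < 28)
    (hu : ∀ w : ℕ, u.testBit w = true → rg.testBit w = true) {V : Finset Cell} (hV : VOK p d rg V) (hs : s < 32)
    (h3 : all3 (u ||| 2 ^ s) e = true) (a d' : Cell) (hd' : IsDir d') (ha : Avo (im p d e) a d') :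
    cnt (insert (p + (s : ℤ) • d) (im p d u ∪ V)) a d' ≤ 3 := by
  rcases wcase hd hrg hu hV a hd' with h1 | ⟨t, ht, hat, hdd, hV'⟩
  · have := cnt_insert hd' (im p d u ∪ V) (p + (s : ℤ) • d) a; omega
  · subst hdd
    rw [← Finset.insert_union, im_insert hs, cnt_V hV', hat, cnt_im hd ht]
    rw [hat] at ha
    have h4 := all_range h3 ht
    rw [fr_of_avo hd ht ha] at h4
    exact Nat.le_of_ble_eq_true h4

/-- After any other stone. -/
theorem ins_off {p d : Cell} (hd : IsDir d) {rg u e : ℕ} (hrg : ∀ w : ℕ, rg.testBit w = true → 4 ≤ w ∧ w < 28)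
    (hu : ∀ w : ℕ, u.testBit w = true → rg.testBit w = true) {V : Finset Cell} (hV : VOK p d rg V) {s : Cell}
    (hs : ∀ v : ℕ, v < 32 → s ≠ p + (v : ℤ) • d) (h3 : ∀ t : ℕ, t < 28 → fr e t = true → c1 u t ≤ 3) (a d' : Cell)
    (hd' : IsDir d') (ha : Avo (im p d e) a d') : cnt (insert s (im p d u ∪ V)) a d' ≤ 3 := by
  rcases wcase hd hrg hu hV a hd' with h1 | ⟨t, ht, hat, hdd, hV'⟩
  · have := cnt_insert hd' (im p d u ∪ V) s a; omega
  · subst hdd
    rw [cnt_insert_of_not, cnt_V hV', hat, cnt_im hd ht]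
    · rw [hat] at ha
      exact h3 t ht (fr_of_avo hd ht ha)
    · intro l hl h
      rw [hat, shift] at h
      exact hs (t + l) (by omega) (by rw [← h]; push_cast; rfl)

theorem chk_le3 {G rg k u e : ℕ} (h : chk G rg k u e = true) :
    (∀ w : ℕ, u.testBit w = true → rg.testBit w = true) ∧ ∀ t : ℕ, t < 28 → fr e t = true → c1 u t ≤ 3 := by
  cases k with
  | zero =>
    unfold chk at h
    rw [Bool.and_eq_true] at h
    refine ⟨rg_sub h.1, fun t ht hf => ?_⟩
    have h1 := all_range h.2 ht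
    rw [hf] at h1
    have h2 : c1 u t ≤ 2 := Nat.le_of_ble_eq_true h1
    omega
  | succ k =>
    unfold chk at h
    rw [Bool.and_eq_true, Bool.and_eq_true] at h
    refine ⟨rg_sub h.1.1, fun t ht hf => ?_⟩
    have h1 := all_range h.1.2 ht
    rw [hf, Bool.not_true, Bool.false_or, Bool.or_eq_true, Bool.and_eq_true] at h1
    rcases h1 with h1 | h1
    · have := Nat.le_of_ble_eq_true h1; omega
    · exact Nat.le_of_ble_eq_true h1.1

theorem chk_EX {Z : Cell → Prop} {p d : Cell} (hd : IsDir d) {G rg : ℕ}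
    (hrg : ∀ w : ℕ, rg.testBit w = true → 4 ≤ w ∧ w < 28) (hG : ∀ v : ℕ, G ≤ v → v < 32 → ¬ Z (p + (v : ℤ) • d))
    {V : Finset Cell} (hV : VOK p d rg V) (k : ℕ) : ∀ u e : ℕ, chk G rg k u e = true →
      EX Z k (im p d e) (im p d u ∪ V) := by
  induction k with
  | zero =>
    intro u e h a d' hd' ha
    unfold chk at h
    rw [Bool.and_eq_true] at h
    rcases wcase hd hrg (rg_sub h.1) hV a hd' with h1 | ⟨t, ht, hat, hdd, hV'⟩
    · exact h1
    · subst hdd
      rw [cnt_V hV', hat, cnt_im hd ht]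
      have h1 := all_range h.2 ht
      rw [hat] at ha
      rw [fr_of_avo hd ht ha] at h1
      exact Nat.le_of_ble_eq_true h1
  | succ k ih =>
    intro u e h
    have hc := chk_le3 h
    unfold chk at h
    rw [Bool.and_eq_true, Bool.and_eq_true] at h
    obtain ⟨⟨h1, h2⟩, h3⟩ := h
    constructor
    · intro a d' hd' ha
      rcases wcase hd hrg (rg_sub h1) hV a hd' with h4 | ⟨t, ht, hat, hdd, hV'⟩
      · exact Or.inl h4
      · subst hdd
        rw [cnt_V hV', hat, cnt_im hd ht]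
        have h5 := all_range h2 ht
        rw [hat] at ha
        rw [fr_of_avo hd ht ha, Bool.not_true, Bool.false_or, Bool.or_eq_true, Bool.and_eq_true] at h5
        rcases h5 with h5 | ⟨h5, h6⟩
        · exact Or.inl (Nat.le_of_ble_eq_true h5)
        · right
          refine ⟨Nat.le_of_ble_eq_true h5, fun l hl => ?_⟩
          rw [shift, show (t : ℤ) + (l : ℤ) = ((t + l : ℕ) : ℤ) by push_cast; rfl]
          rcases gd_spec h6 hl with h7 | h7
          · left
            exact Finset.mem_union_left _ ((mem_im_iff hd (by omega)).2 h7)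
          · exact Or.inr (hG _ h7 (by omega))
    · intro s hsE hsU
      by_cases hs : ∃ v : ℕ, v < 32 ∧ s = p + (v : ℤ) • d
      · obtain ⟨v, hv, rfl⟩ := hs
        have h4 := all_range h3 hv
        have hvu : u.testBit v = false := by
          by_contra hc
          rw [Bool.not_eq_false] at hc
          exact hsU (Finset.mem_union_left _ ((mem_im_iff hd hv).2 hc))
        have hve : e.testBit v = false := by
          by_contra hc
          rw [Bool.not_eq_false] at hc
          exact hsE ((mem_im_iff hd hv).2 hc)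
        rw [hvu, hve, Bool.false_or, Bool.false_or, Bool.or_eq_true] at h4
        rcases h4 with h4 | h4
        · left
          exact ins3 hd hrg (rg_sub h1) hV hv h4
        · right
          rw [Bool.and_eq_true] at h4
          obtain ⟨h4, h5⟩ := h4
          refine ⟨hG v (Nat.le_of_ble_eq_true h4) hv, ?_⟩
          rw [List.any_eq_true] at h5
          obtain ⟨y, hy, h5⟩ := h5
          rw [List.mem_range] at hy
          simp only [Bool.and_eq_true, Bool.not_eq_true'] at h5
          obtain ⟨⟨⟨⟨h6, h7⟩, h8⟩, h9⟩, h10⟩ := h5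
          have hyV : p + (y : ℤ) • d ∉ V := by
            intro hc
            have := hV.far _ hc y rfl y h7
            omega
          refine ⟨p + (y : ℤ) • d, ?_, ?_, hG y (Nat.le_of_ble_eq_true h6) hy, ?_⟩
          · rw [mem_im_iff hd hy, h9]; simp
          · rw [← Finset.insert_union, im_insert hv, Finset.mem_union, mem_im_iff hd hy, h8]
            rintro (h | h)
            · exact absurd h (by simp)
            · exact hyV h
          · rw [← Finset.insert_union, im_insert hv, im_insert hy]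
            exact ih _ _ h10
      · left
        push Not at hs
        exact ins_off hd hrg (rg_sub h1) hV hs hc.2

end Pool.Agent.H10.Five
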