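import Pool.Agent.H83.Five.Pair
import Pool.Agent.H94.Five.Msk

set_option autoImplicit false
set_option linter.all false
set_option maxRecDepth 10000
set_option exponentiation.threshold 20000

/-! Translation of won positions with two stones of each player. -/

namespace Pool.Agent.H10.Five

open Pool.Agent.H79.Five Pool.Agent.H94.Five.M

theorem Rep.mem_iff {X : ℕ} {A B : Finset Cell} (h : H79.Five.Rep X A B) (c : Cell) :
    (c ∈ A ↔ Inb c ∧ dg X (ix c) = 0) ∧ (c ∈ B ↔ Inb c ∧ dg X (ix c) = 5) := by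
  constructor
  · constructor
    · intro hc
      have hi := (h.inA c hc).inb
      refine ⟨hi, ?_⟩
      rw [h.dig _ (ix_lt hi), cl_ix hi, if_pos hc]
    · rintro ⟨hi, h0⟩
      have := h.zero (ix_lt hi) h0
      rwa [cl_ix hi] at this
  · constructor
    · intro hc
      have hi := (h.inB c hc).inb
      have hA : c ∉ A := fun hA => Finset.disjoint_left.1 h.dis hA hc
      refine ⟨hi, ?_⟩
      rw [h.dig _ (ix_lt hi), cl_ix hi, if_neg hA, if_pos hc]
    · rintro ⟨hi, h0⟩
      rw [h.dig _ (ix_lt hi), cl_ix hi] at h0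
      by_contra hc
      rw [if_neg hc] at h0
      split_ifs at h0
      omega

theorem Rep.uniq {X : ℕ} {A B A' B' : Finset Cell} (h : H79.Five.Rep X A B) (h' : H79.Five.Rep X A' B') :
    A = A' ∧ B = B' := by
  constructor
  · ext c
    rw [(Rep.mem_iff h c).1, (Rep.mem_iff h' c).1]
  · ext c
    rw [(Rep.mem_iff h c).2, (Rep.mem_iff h' c).2]

theorem cells_two {a b : ℕ} (ha : a < 1024) (hb : b < 1024) : cells (bits [a, b]) = {cl a, cl b} := by
  ext c
  change c ∈ cells (Nat.lor (bit a) (Nat.lor (bit b) 0)) ↔ _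
  rw [mem_lor, mem_lor, mem_bit ha, mem_bit hb, mem_cells, Finset.mem_insert, Finset.mem_singleton]
  simp

/-- Translation by `v`; the target has the board with `F2 = (14, 14)`, `F1 = (15, 15)`. -/
theorem S.shift {X2 f g : ℕ} (hX2 : H79.Five.Rep X2 {cl f, cl g} ∅) (v : Cell) {a b a' b' X' : ℕ}
    (h : S (Nat.lor X2 (bits [a, b])))
    (hk : Bool.and (Bool.and (dOk X2 (bits [a, b])) (okp X')) (Nat.beq (DX X') (bits [a', b'])) = true)
    (hv : (cl f + v = (14, 14) ∧ cl g + v = (15, 15)) ∧ (cl a + v = cl a' ∧ cl b + v = cl b') ∧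
      (a < 1024 ∧ b < 1024) ∧ (a' < 1024 ∧ b' < 1024)) : S X' := by
  obtain ⟨h1, h2⟩ := andb hk
  obtain ⟨hd, hp⟩ := andb h1
  have h2 := Nat.eq_of_beq_eq_true h2
  obtain ⟨⟨hf, hg⟩, ⟨ha, hb⟩, ⟨ha1, hb1⟩, ha2, hb2⟩ := hv
  have hR := (hX2.lor (dg01_bits [a, b]) hd).1
  rw [Finset.empty_union, cells_two ha1 hb1] at hR
  obtain ⟨n, hn⟩ := h _ _ hR
  have hn' := hn.translate v
  intro A B hX
  obtain ⟨rfl, rfl⟩ := Rep.uniq hX (okp_rep hp)
  refine ⟨n, ?_⟩
  rw [h2, cells_two ha2 hb2]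
  have e1 : ({cl f, cl g} : Finset Cell).map (tr v).toEmbedding = AA := by
    rw [Finset.map_insert, Finset.map_singleton]
    change ({cl f + v, cl g + v} : Finset Cell) = _
    rw [hf, hg]
    ext c
    rw [mem_AA, Finset.mem_insert, Finset.mem_singleton]
  have e2 : ({cl a, cl b} : Finset Cell).map (tr v).toEmbedding = {cl a', cl b'} := by
    rw [Finset.map_insert, Finset.map_singleton]
    change ({cl a + v, cl b + v} : Finset Cell) = _
    rw [ha, hb]
  rw [e1, e2] at hn'
  exact hn'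

end Pool.Agent.H10.Five
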