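import Pool.Agent.H94.Five.VW
import Pool.Agent.H10.Five.Lev1

set_option autoImplicit false
set_option linter.all false
set_option maxRecDepth 10000
set_option exponentiation.threshold 20000

/-! Positions with Second to move: families with certificates at scope 1 as well. -/

namespace Pool.Agent.H10.Five

open Pool.Agent.H79.Five Pool.Agent.H94.Five.M

/-- `(D, z0, zs)`: a certificate at scope 1 -/
abbrev Ent1 := ℕ × ℕ × ℕ

/-- Good masks of the entry `e` over the base `XB` with First's stones `M0`. -/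
def wf1 (XB M0 : ℕ) (e : Ent1) : Bool :=
  Bool.and (Nat.beq (Nat.lor (Nat.lor M0 e.1) e.2.2) e.2.2)
    (Bool.and (dOk XB e.1) (Nat.beq (Nat.lor e.1 ones) ones))

/-- The entry is a certificate. -/
def OKE1 (XB M0 : ℕ) (e : Ent1) : Prop := wf1 XB M0 e = true ∧ C2 (Nat.lor XB e.1) e.2.1 e.2.2

theorem OKE1.of {XB M0 X D z0 zs : ℕ} (h : C2 X z0 zs)
    (hw : Bool.and (Nat.beq (Nat.lor XB D) X) (wf1 XB M0 (D, z0, zs)) = true) : OKE1 XB M0 (D, z0, zs) := by
  obtain ⟨h1, h2⟩ := andb hw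
  have h1 := Nat.eq_of_beq_eq_true h1
  subst h1
  exact ⟨h2, h⟩

def AC1 (XB M0 : ℕ) (l : List Ent1) : Prop := ∀ e ∈ l, OKE1 XB M0 e

theorem AC1.nil {XB M0 : ℕ} : AC1 XB M0 [] := fun e he => absurd he (by simp)

theorem AC1.cons {XB M0 : ℕ} {e : Ent1} {l : List Ent1} (h : OKE1 XB M0 e) (hl : AC1 XB M0 l) : AC1 XB M0 (e :: l) := by
  intro x hx
  rcases List.mem_cons.1 hx with rfl | hx
  · exact h
  · exact hl x hx

theorem AC1.append {XB M0 : ℕ} {l l' : List Ent1} (h : AC1 XB M0 l) (hl : AC1 XB M0 l') : AC1 XB M0 (l ++ l') := by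
  intro x hx
  rcases List.mem_append.1 hx with hx | hx
  · exact h x hx
  · exact hl x hx

/-- The entry is usable at the position with Second's stones `u` and the plan cells `o`. -/
def us1 (u o : ℕ) (e : Ent1) : Bool := Bool.and (Nat.beq (Nat.land u e.2.1) 0) (Nat.beq (Nat.land o e.2.2) 0)

/-- What a usable entry gives. -/
theorem use1 {XB M0 : ℕ} (hB : Base XB M0) {e : Ent1} (he : OKE1 XB M0 e) :
    ∃ n, ∀ {X : ℕ} {A U R : Finset Cell} {q : Q0} {p : Q1},
    Rep X A U → (∀ c ∈ cells M0, c ∈ A) → nod1 q p X = true → us1 (su X) (on1 q p X) e = true → R ⊆ cells e.1 ∪ U →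
    Disjoint R A → W (n + max (dp q) (dp1 p)) A R := by
  obtain ⟨hw, hC⟩ := he
  obtain ⟨hw1, hw2⟩ := andb (a := Nat.beq (Nat.lor (Nat.lor M0 e.1) e.2.2) e.2.2) hw
  obtain ⟨hO, hD1⟩ := andb hw2
  obtain ⟨hX2, -, -⟩ := hB.1.lor (D01.of hD1) hO
  rw [Finset.empty_union] at hX2
  obtain ⟨n, hn⟩ := hC _ _ hX2 (fun c hc => lsub hw1 (mem_lor.2 (Or.inl hc))) (fun c hc => lsub hw1 (mem_lor.2 (Or.inr hc)))
  refine ⟨n, fun {X A U R q p} hX hA hq hu hR hdis => ?_⟩
  obtain ⟨hu1, hu2⟩ := andb (a := Nat.beq (Nat.land (su X) e.2.1) 0) hu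
  have hAA : cells M0 ∪ A = A := Finset.union_eq_right.2 hA
  have := hn _ A U R (nod1_EX1 _ hX hq le_rfl fun c hc => land0 hu2 hc) (fun c hc => land0 hu1 (su_mem hX hc)) hR
    (by rw [hAA]; exact hdis)
  rwa [hAA] at this

/-- Union of the sets of the usable entries. -/
def covd1 (u o : ℕ) (l : List Ent1) : ℕ :=
  @List.rec Ent1 (fun _ => ℕ) (nat_lit 0) (fun e _ r => @Bool.rec (fun _ => ℕ) r (Nat.lor e.1 r) (us1 u o e)) l

/-- Uniform bound for the usable entries of a list. -/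
theorem AC1.exp {XB M0 : ℕ} (hB : Base XB M0) {l : List Ent1} (hl : AC1 XB M0 l) {X : ℕ} {A U : Finset Cell} {q : Q0}
    {p : Q1} (hX : Rep X A U) (hA : ∀ c ∈ cells M0, c ∈ A) (hq : nod1 q p X = true) :
    ∃ n, ∀ s, s ∈ cells (covd1 (su X) (on1 q p X) l) → s ∉ A → W n A (insert s U) := by
  induction l with
  | nil =>
    refine ⟨0, fun s hs => ?_⟩
    have := (mem_cells.1 hs).2
    change (0 : ℕ).testBit _ = true at this
    rw [Nat.zero_testBit] at this
    exact absurd this (by simp)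
  | cons e l ih =>
    obtain ⟨n, hn⟩ := ih fun x hx => hl x (List.mem_cons_of_mem _ hx)
    obtain ⟨n', hn'⟩ := use1 hB (hl e List.mem_cons_self)
    refine ⟨max n (n' + max (dp q) (dp1 p)), fun s hs hsA => ?_⟩
    change s ∈ cells (@Bool.rec (fun _ => ℕ) (covd1 (su X) (on1 q p X) l) (Nat.lor e.1 (covd1 (su X) (on1 q p X) l))
      (us1 (su X) (on1 q p X) e)) at hs
    cases hu : us1 (su X) (on1 q p X) e with
    | false =>
      rw [hu] at hs
      exact (hn s hs hsA).le (le_max_left _ _)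
    | true =>
      rw [hu] at hs
      rcases mem_lor.1 hs with hs | hs
      · refine (hn' hX hA hq hu (Finset.insert_subset_iff.2 ⟨Finset.mem_union_left _ hs, Finset.subset_union_right⟩) ?_).le
          (le_max_right _ _)
        rw [Finset.disjoint_insert_left]
        exact ⟨hsA, hX.dis.symm⟩
      · exact (hn s hs hsA).le (le_max_left _ _)

/-- All the conditions on the position `X`; `w` is the value of `covd1`. -/
def vk1 (M0 : ℕ) (nl fl : List Ent) (X : ℕ) (q : Q0) (nk : List (ℕ × Q0)) (ds : List (List ℕ × ℕ)) (w : ℕ) : Bool :=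
  Bool.and (Bool.and (Bool.and (Nat.beq (Nat.land X (Nat.mul (nat_lit 7) M0)) 0) (lev q X)) (Bool.and (dOk X (fm q)) (nkk nl X nk)))
    (Bool.and (Bool.and (anyu X (am q) nl) (dk X ds))
      (Nat.beq (Nat.lor (Nat.land (Nat.lor (Nat.lor (am q) (cel (Nat.lor X (fm q)) c10)) (unc X (am q) nl)) (emp X))
        (Nat.lor w (Nat.lor (Nat.lor (covd X (am q) fl) (nko nk)) (orl ds))))
        (Nat.lor w (Nat.lor (Nat.lor (covd X (am q) fl) (nko nk)) (orl ds)))))

/-- **Second to move**: as `VW.of`, with certificates at scope 1 as well. -/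
theorem VW.of1 {XB M0 : ℕ} (hB : Base XB M0) {nl fl : List Ent} {gl : List Ent1} (hn : AC XB M0 nl) (hf : AC XB M0 fl)
    (hg : AC1 XB M0 gl) {X : ℕ} (q : Q0) (p : Q1)
    (nk : List (ℕ × Q0)) (ds : List (List ℕ × ℕ))
    (h : Bool.and (nod1 q p X) (vk1 M0 nl fl X q nk ds (covd1 (su X) (on1 q p X) gl)) = true) (hd : AS ds) : VW X := by
  obtain ⟨hnod, h⟩ := andb h
  obtain ⟨h1, h2⟩ := andb (a := Bool.and (Bool.and (Nat.beq (Nat.land X (Nat.mul (nat_lit 7) M0)) 0) (lev q X)) (Bool.and (dOk X (fm q)) (nkk nl X nk))) h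
  obtain ⟨h3, h4⟩ := andb (a := Bool.and (Nat.beq (Nat.land X (Nat.mul (nat_lit 7) M0)) 0) (lev q X)) h1
  obtain ⟨hM, hq⟩ := andb (a := Nat.beq (Nat.land X (Nat.mul (nat_lit 7) M0)) 0) h3
  obtain ⟨hfq, hnk⟩ := andb (a := dOk X (fm q)) h4
  obtain ⟨h5, h6⟩ := andb (a := Bool.and (anyu X (am q) nl) (dk X ds)) h2
  obtain ⟨hany, hdk⟩ := andb (a := anyu X (am q) nl) h5
  intro A U hX
  have hA : ∀ c ∈ cells M0, c ∈ A := by
    intro c hc
    obtain ⟨hi, hb⟩ := mem_cells.1 hc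
    have hD := D01.of hB.2
    have hM := Nat.eq_of_beq_eq_true hM
    change X &&& (7 * M0) = 0 at hM
    have h7 : dg (X &&& (7 * M0)) (ix c) = 0 := by rw [hM, dg_zero]
    rw [hD.tb, decide_eq_true_eq] at hb
    rw [dg_land, dg_kmul hD 7 (by norm_num), hb] at h7
    have h8 := hX.le5 (ix c)
    have h9 : dg X (ix c) = 0 := by
      revert h7
      generalize dg X (ix c) = v at *
      interval_cases v <;> decide
    have := hX.zero (ix_lt hi) h9
    rwa [cl_ix hi] at this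
  obtain ⟨n0, hn0⟩ := hg.exp hB hX hA hnod
  obtain ⟨n1, hn1⟩ := hf.exp hB hX hA hq
  obtain ⟨n2, hn2⟩ := hn.null hB hX hA hq hfq
  obtain ⟨n3, hn3⟩ := nkk_get hB hn hX hA hnk
  obtain ⟨n4, hn4⟩ := hd.get hX hdk
  refine ⟨max n0 (max (max n1 n2) (max n3 n4)), fun s hsA hsU => ⟨safe0 hX (lev_saf hq) hsA, ?_⟩⟩
  by_cases hH : s ∈ cells (Nat.lor (Nat.lor (am q) (cel (Nat.lor X (fm q)) c10)) (unc X (am q) nl))
  · have hi := (mem_cells.1 hH).1
    have h7 := lsub h6 (mem_land.2 ⟨hH, mem_emp hX hi hsA hsU⟩)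
    rcases mem_lor.1 h7 with h7 | h7
    · exact (hn0 s h7 hsA).le (le_max_left _ _)
    · refine W.le (le_max_right _ _) ?_
      rcases mem_lor.1 h7 with h7 | h7
      · rcases mem_lor.1 h7 with h7 | h7
        · exact (hn1 s h7 hsA).le ((le_max_left _ _).trans (le_max_left _ _))
        · exact (hn3 s h7).le ((le_max_left _ _).trans (le_max_right _ _))
      · exact (hn4 s hi (mem_cells.1 h7).2).le ((le_max_right _ _).trans (le_max_right _ _))
  · refine W.le (le_max_right _ _) ?_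
    rw [mem_lor, mem_lor, not_or, not_or] at hH
    have h8 := hn2 s hsA hsU hH.1.1 hH.1.2
    by_cases hi : Inb s
    · exact (h8.2 hi hH.2).le ((le_max_right _ _).trans (le_max_left _ _))
    · exact (h8.1 hany hi).le ((le_max_right _ _).trans (le_max_left _ _))

end Pool.Agent.H10.Five
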