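import Pool.Agent.H94.Five.VW
import Pool.Agent.H10.Five.VW1

set_option autoImplicit false
set_option linter.all false
set_option maxRecDepth 10000
set_option exponentiation.threshold 20000

/-! Positions with Second to move: families whose entries contain stones of Second on the board. -/

namespace Pool.Agent.H10.Five

open Pool.Agent.H79.Five Pool.Agent.H94.Five.M

theorem WC.sub {Z : Cell → Prop} {E U U' : Finset Cell} (h : WC Z E U) (hU : U' ⊆ U) : WC Z E U' := by
  intro a d hd ha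
  have h1 := cnt_mono hU a d
  rcases h a d hd ha with h2 | ⟨h2, h3⟩
  · left; omega
  · by_cases h4 : ∀ l : ℕ, l < 5 → a + (l : ℤ) • d ∈ U → a + (l : ℤ) • d ∈ U'
    · exact Or.inr ⟨h1.trans h2, fun l hl => (h3 l hl).imp (h4 l hl) id⟩
    · push Not at h4
      obtain ⟨l, hl, h5, h6⟩ := h4
      left
      have h7 : cnt U' a d < cnt U a d := by
        apply Finset.card_lt_card
        refine ⟨fun k hk => ?_, fun h => ?_⟩
        · rw [Finset.mem_filter] at hk ⊢
          exact ⟨hk.1, hU hk.2⟩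
        · have h8 : l ∈ (Finset.range 5).filter (fun k : ℕ => a + (k : ℤ) • d ∈ U') :=
            h (Finset.mem_filter.2 ⟨Finset.mem_range.2 hl, h5⟩)
          exact h6 (Finset.mem_filter.1 h8).2
      omega

theorem EX.sub {Z : Cell → Prop} (k : ℕ) : ∀ {E U U' : Finset Cell}, EX Z k E U → U' ⊆ U → EX Z k E U' := by
  induction k with
  | zero => exact fun {E U U'} h hU a d hd ha => (cnt_mono hU a d).trans (h a d hd ha)
  | succ k ih =>
    intro E U U' h hU
    refine ⟨WC.sub h.1 hU, fun s hsE hsU' => ?_⟩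
    by_cases hsU : s ∈ U
    · left
      intro a d hd ha
      exact (cnt_mono (Finset.insert_subset hsU hU) a d).trans (h.1.le3 hd ha)
    · rcases h.2 s hsE hsU with h1 | ⟨h1, y, h2, h3, h4, h5⟩
      · exact Or.inl fun a d hd ha => (cnt_mono (Finset.insert_subset_insert s hU) a d).trans (h1 a d hd ha)
      · exact Or.inr ⟨h1, y, h2, fun h => h3 (Finset.insert_subset_insert s hU h), h4,
          ih h5 (Finset.insert_subset_insert s hU)⟩

/-- The position without the stones of Second in `D`. -/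
def dl (X D : ℕ) : ℕ := Nat.xor X (Nat.land D (su X))

theorem dl_rep {X D : ℕ} {A U : Finset Cell} (hX : Rep X A U) (hD : D01 D) : Rep (dl X D) A (U \ cells D) := by
  have h01 : ∀ v w : ℕ, v ≤ 5 → w = 0 ∨ w = 1 → v ≠ 1 → v ≠ 3 → True := fun _ _ _ _ _ _ => trivial
  refine ⟨?_, ?_, hX.inA, fun c hc => hX.inB c (Finset.sdiff_subset hc), hX.dis.mono_right Finset.sdiff_subset⟩
  · intro n hn
    have h1 : dg (dl X D) n = dg X n ^^^ (dg D n &&& (dg X n &&& dg ones n)) := by
      change dg (X ^^^ (D &&& (X &&& ones))) n = _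
      rw [dg_xor, dg_land, dg_land]
    have h2 : dg ones n = 1 := by
      rw [ones_eq, ← one_mul (rp 1024), dg_mul_rp (by norm_num), if_pos hn]
    have h3 : cl n ∈ cells D ↔ dg D n = 1 := by
      rw [mem_cells, ix_cl, hD.tb, decide_eq_true_eq]
      exact ⟨fun h => h.2, fun h => ⟨inb_cl hn, h⟩⟩
    rw [h1, h2, hX.dig n hn]
    by_cases hA : cl n ∈ A
    · rw [if_pos hA, if_pos hA]
      rcases hD n with h | h <;> rw [h] <;> decide
    · rw [if_neg hA, if_neg hA]
      by_cases hU : cl n ∈ U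
      · rw [if_pos hU]
        rcases hD n with h | h
        · rw [if_pos (Finset.mem_sdiff.2 ⟨hU, fun hc => by rw [h3, h] at hc; exact absurd hc (by norm_num)⟩), h]; decide
        · rw [if_neg (fun hc => (Finset.mem_sdiff.1 hc).2 (h3.2 h)), h]; decide
      · rw [if_neg hU, if_neg (fun hc => hU (Finset.mem_sdiff.1 hc).1)]
        rcases hD n with h | h <;> rw [h] <;> decide
  · intro n hn
    have h1 : dg (dl X D) n = dg X n ^^^ (dg D n &&& (dg X n &&& dg ones n)) := by
      change dg (X ^^^ (D &&& (X &&& ones))) n = _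
      rw [dg_xor, dg_land, dg_land]
    rw [h1, hX.out n hn]
    simp

/-- The entry is usable at the position `X` with the plan cells `q`. -/
def us2 (X : ℕ) (q : ℕ) (e : Ent) : Bool :=
  Bool.and (Nat.beq (Nat.land (su (dl X e.1)) e.2.2.1) 0) (Bool.and (Nat.beq (Nat.land q e.2.2.2) 0) (sf2 (msk (dl X e.1) e.2.1)))

/-- What a usable entry gives. -/
theorem use2 {XB M0 : ℕ} (hB : Base XB M0) {e : Ent} (he : OKE XB M0 e) : ∃ n, ∀ {X : ℕ} {A U R : Finset Cell} {q : Q0},
    Rep X A U → (∀ c ∈ cells M0, c ∈ A) → lev q X = true → us2 X (am q) e = true → R ⊆ cells e.1 ∪ U → Disjoint R A →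
    W (n + dp q) A R := by
  obtain ⟨hw, t, N, hF, hz0, hz1, hsp⟩ := he
  obtain ⟨hw1, hw2⟩ := andb (a := Bool.and (Bool.and (Nat.beq (Nat.lor e.2.1 ones) ones) (Nat.beq (Nat.lor M0 e.2.2.2) e.2.2.2)) _) hw
  obtain ⟨hw3, hw4⟩ := andb (a := Bool.and (Nat.beq (Nat.lor e.2.1 ones) ones) (Nat.beq (Nat.lor M0 e.2.2.2) e.2.2.2)) hw1
  obtain ⟨hd0, hM⟩ := andb hw3
  obtain ⟨hD, hw5⟩ := andb hw4
  obtain ⟨hO, hD1⟩ := andb hw5
  obtain ⟨h0s, h1s⟩ := andb hw2
  refine ⟨ht t, fun {X A U R q} hX hA hq hu hR hdis => ?_⟩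
  obtain ⟨hu1, hu2⟩ := andb (a := Nat.beq (Nat.land (su (dl X e.1)) e.2.2.1) 0) hu
  obtain ⟨hu2, hu3⟩ := andb (a := Nat.beq (Nat.land (am q) e.2.2.2) 0) hu2
  obtain ⟨hX2, -, -⟩ := hB.1.lor (D01.of hD1) hO
  rw [Finset.empty_union] at hX2
  have hY := dl_rep hX (D01.of hD1)
  have hEX : EX (fun c => c ∈ cells e.2.2.2) (dp q) A (U \ cells e.1) :=
    EX.sub _ (lev_EX (dp q) hX hq le_rfl fun c hc => land0 hu2 hc) Finset.sdiff_subset
  have hUD : UD (N >>> 64) (cells M0) A (U \ cells e.1) := by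
    refine ⟨fun c hc hz => land0 hu1 (su_mem hY hc) (hz1 c hz), fun a d hd h1 h2 h3 => ?_⟩
    exact sf2_spec hY (D01.of hd0) hu3 hd h2 fun l hl => hz0 _ (h3 l hl)
  have hAA : cells M0 ∪ A = A := Finset.union_eq_right.2 hA
  have hR' : R ⊆ cells e.1 ∪ U \ cells e.1 := by
    rw [Finset.union_sdiff_self_eq_union]; exact hR
  have := (Pool.Agent.H94.Five.M.soundE (Z := fun c => c ∈ cells e.2.2.2) t).1 _ N 0 0 0 _ _ hX2 (fun c hc => lsub hM hc) (fun c hc => lsub hD hc)
    hsp hF (by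
      intro i hi c hc
      interval_cases i
      · exact lsub h0s (hz0 c hc)
      · exact lsub h1s (hz1 c hc)) (dp q) A (U \ cells e.1) R hEX hUD hR' (by rw [hAA]; exact hdis)
  rwa [hAA] at this

/-- Union of the sets of the usable entries. -/
def covd2 (X q : ℕ) (l : List Ent) : ℕ :=
  @List.rec Ent (fun _ => ℕ) (nat_lit 0) (fun e _ r => @Bool.rec (fun _ => ℕ) r (Nat.lor e.1 r) (us2 X q e)) l

/-- Uniform bound for the usable entries of a list. -/
theorem exp2 {XB M0 : ℕ} (hB : Base XB M0) {l : List Ent} (hl : AC XB M0 l) {X : ℕ} {A U : Finset Cell} {q : Q0}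
    (hX : Rep X A U) (hA : ∀ c ∈ cells M0, c ∈ A) (hq : lev q X = true) :
    ∃ n, ∀ s, s ∈ cells (covd2 X (am q) l) → s ∉ A → W n A (insert s U) := by
  induction l with
  | nil =>
    refine ⟨0, fun s hs => ?_⟩
    have := (mem_cells.1 hs).2
    change (0 : ℕ).testBit _ = true at this
    rw [Nat.zero_testBit] at this
    exact absurd this (by simp)
  | cons e l ih =>
    obtain ⟨n, hn⟩ := ih fun x hx => hl x (List.mem_cons_of_mem _ hx)
    obtain ⟨n', hn'⟩ := use2 hB (hl e List.mem_cons_self)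
    refine ⟨max n (n' + dp q), fun s hs hsA => ?_⟩
    change s ∈ cells (@Bool.rec (fun _ => ℕ) (covd2 X (am q) l) (Nat.lor e.1 (covd2 X (am q) l)) (us2 X (am q) e)) at hs
    cases hu : us2 X (am q) e with
    | false =>
      rw [hu] at hs
      exact (hn s hs hsA).le (le_max_left _ _)
    | true =>
      rw [hu] at hs
      rcases mem_lor.1 hs with hs | hs
      · refine (hn' hX hA hq hu (Finset.insert_subset_iff.2 ⟨Finset.mem_union_left _ hs, Finset.subset_union_right⟩) ?_).le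
          (le_max_right _ _)
        rw [Finset.disjoint_insert_left]
        exact ⟨hsA, hX.dis.symm⟩
      · exact (hn s hs hsA).le (le_max_left _ _)

/-- Cells not covered by the null certificates. -/
def unc2 (X q : ℕ) (l : List Ent) : ℕ :=
  @List.rec Ent (fun _ => ℕ) ones
    (fun e _ r => @Bool.rec (fun _ => ℕ) r
      (Nat.land (Nat.lor e.2.2.1 (cel (msk (dl X e.1) e.2.1) c11)) r) (us2 X q e)) l

/-- Some entry is usable. -/
def anyu2 (X q : ℕ) (l : List Ent) : Bool :=
  @List.rec Ent (fun _ => Bool) false (fun e _ r => @Bool.rec (fun _ => Bool) r true (us2 X q e)) l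

theorem use_null2 {XB M0 : ℕ} (hB : Base XB M0) {e : Ent} (he : OKE XB M0 e) : ∃ n, ∀ {X : ℕ} {A U : Finset Cell} {q : Q0} {s : Cell},
    Rep X A U → (∀ c ∈ cells M0, c ∈ A) → lev q X = true → us2 X (am q) e = true → dOk X (fm q) = true →
    s ∉ A → s ∉ U → s ∉ cells (am q) → s ∉ cells (cel (Nat.lor X (fm q)) c10) → s ∉ cells e.2.2.1 →
    s ∉ cells (cel (msk (dl X e.1) e.2.1) c11) → W (n + dp q) A (insert s U) := by
  obtain ⟨hw, t, N, hF, hz0, hz1, hsp⟩ := he
  obtain ⟨hw1, hw2⟩ := andb (a := Bool.and (Bool.and (Nat.beq (Nat.lor e.2.1 ones) ones) (Nat.beq (Nat.lor M0 e.2.2.2) e.2.2.2)) _) hw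
  obtain ⟨hw3, hw4⟩ := andb (a := Bool.and (Nat.beq (Nat.lor e.2.1 ones) ones) (Nat.beq (Nat.lor M0 e.2.2.2) e.2.2.2)) hw1
  obtain ⟨hd0, hM⟩ := andb hw3
  obtain ⟨hD, hw5⟩ := andb hw4
  obtain ⟨hO, hD1⟩ := andb hw5
  obtain ⟨h0s, h1s⟩ := andb hw2
  refine ⟨ht t, fun {X A U q s} hX hA hq hu hf hsA hsU hsq hs10 hs1 hs11 => ?_⟩
  obtain ⟨hu1, hu2⟩ := andb (a := Nat.beq (Nat.land (su (dl X e.1)) e.2.2.1) 0) hu
  obtain ⟨hu2, hu3⟩ := andb (a := Nat.beq (Nat.land (am q) e.2.2.2) 0) hu2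
  obtain ⟨hX2, -, -⟩ := hB.1.lor (D01.of hD1) hO
  rw [Finset.empty_union] at hX2
  have hY := dl_rep hX (D01.of hD1)
  obtain ⟨hXf, -, -⟩ := hX.lor (dg01_fm q) hf
  have hEX : EX (fun c => c ∈ cells e.2.2.2) (dp q) A (insert s (U \ cells e.1)) := by
    refine EX.sub _ (lev_EXi (C := U ∪ cells (fm q)) (dp q) hX hq le_rfl (fun c hc => land0 hu2 hc) hsA hsU hsq Finset.subset_union_left
      (fun c hc => Finset.mem_union_right _ hc) ?_) (Finset.insert_subset_insert s Finset.sdiff_subset)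
    intro a d hd hE l hl hls
    by_contra hc
    apply hs10
    rw [← hls]
    exact cel10 hXf hd hE (by omega) hl
  have hUD : UD (N >>> 64) (cells M0) A (insert s (U \ cells e.1)) := by
    refine ⟨fun c hc hz => ?_, fun a d hd h1 h2 h3 => ?_⟩
    · rcases Finset.mem_insert.1 hc with rfl | hc
      · exact hs1 (hz1 c hz)
      · exact land0 hu1 (su_mem hY hc) (hz1 c hz)
    · have h4 : cnt (U \ cells e.1) a d ≤ 1 := sf2_spec hY (D01.of hd0) hu3 hd h2 fun l hl => hz0 _ (h3 l hl)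
      by_cases hw : ∃ l : ℕ, l < 5 ∧ a + (l : ℤ) • d = s
      · obtain ⟨l, hl, hls⟩ := hw
        have h5 : cnt (U \ cells e.1) a d = 0 := by
          by_contra hc
          apply hs11
          rw [← hls]
          exact cel11 hY (D01.of hd0) hd h2 (fun l hl => hz0 _ (h3 l hl)) (by omega) hl
        have := cnt_insert hd (U \ cells e.1) s a
        omega
      · push Not at hw
        rw [cnt_insert_of_not hw]
        exact h4
  have hAA : cells M0 ∪ A = A := Finset.union_eq_right.2 hA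
  have hR' : insert s U ⊆ cells e.1 ∪ insert s (U \ cells e.1) := by
    intro x hx
    by_cases hxD : x ∈ cells e.1
    · exact Finset.mem_union_left _ hxD
    · apply Finset.mem_union_right
      rcases Finset.mem_insert.1 hx with h | h
      · exact Finset.mem_insert.2 (Or.inl h)
      · exact Finset.mem_insert.2 (Or.inr (Finset.mem_sdiff.2 ⟨h, hxD⟩))
  have := (Pool.Agent.H94.Five.M.soundE (Z := fun c => c ∈ cells e.2.2.2) t).1 _ N 0 0 0 _ _ hX2 (fun c hc => lsub hM hc) (fun c hc => lsub hD hc)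
    hsp hF (by
      intro i hi c hc
      interval_cases i
      · exact lsub h0s (hz0 c hc)
      · exact lsub h1s (hz1 c hc)) (dp q) A (insert s (U \ cells e.1)) (insert s U) hEX hUD hR' (by
        rw [hAA, Finset.disjoint_insert_left]
        exact ⟨hsA, hX.dis.symm⟩)
  rwa [hAA] at this

theorem null2 {XB M0 : ℕ} (hB : Base XB M0) {l : List Ent} (hl : AC XB M0 l) {X : ℕ} {A U : Finset Cell} {q : Q0}
    (hX : Rep X A U) (hA : ∀ c ∈ cells M0, c ∈ A) (hq : lev q X = true) (hf : dOk X (fm q) = true) :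
    ∃ n, ∀ s, s ∉ A → s ∉ U → s ∉ cells (am q) → s ∉ cells (cel (Nat.lor X (fm q)) c10) →
      (anyu2 X (am q) l = true → ¬ Inb s → W n A (insert s U)) ∧ (Inb s → s ∉ cells (unc2 X (am q) l) → W n A (insert s U)) := by
  induction l with
  | nil =>
    refine ⟨0, fun s _ _ _ _ => ⟨fun h => absurd (show false = true from h) (by decide), fun hi hs => absurd (mem_cells.2 ⟨hi, ones_tb (ix_lt hi)⟩) hs⟩⟩
  | cons e l ih =>
    obtain ⟨n, hn⟩ := ih fun x hx => hl x (List.mem_cons_of_mem _ hx)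
    obtain ⟨n', hn'⟩ := use_null2 hB (hl e List.mem_cons_self)
    refine ⟨max n (n' + dp q), fun s hsA hsU hsq hs10 => ⟨fun h hi => ?_, fun hi hs => ?_⟩⟩
    · change @Bool.rec (fun _ => Bool) (anyu2 X (am q) l) true (us2 X (am q) e) = true at h
      cases hu : us2 X (am q) e with
      | false =>
        rw [hu] at h
        exact ((hn s hsA hsU hsq hs10).1 h hi).le (le_max_left _ _)
      | true =>
        exact (hn' hX hA hq hu hf hsA hsU hsq hs10 (fun h => hi (mem_cells.1 h).1) (fun h => hi (mem_cells.1 h).1)).le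
          (le_max_right _ _)
    · change s ∉ cells (@Bool.rec (fun _ => ℕ) (unc2 X (am q) l)
        (Nat.land (Nat.lor e.2.2.1 (cel (msk (dl X e.1) e.2.1) c11)) (unc2 X (am q) l)) (us2 X (am q) e)) at hs
      cases hu : us2 X (am q) e with
      | false =>
        rw [hu] at hs
        exact ((hn s hsA hsU hsq hs10).2 hi hs).le (le_max_left _ _)
      | true =>
        rw [hu] at hs
        by_cases h2 : s ∈ cells (unc2 X (am q) l)
        · have h3 : s ∉ cells (Nat.lor e.2.2.1 (cel (msk (dl X e.1) e.2.1) c11)) := fun h => hs (mem_land.2 ⟨h, h2⟩)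
          rw [mem_lor, not_or] at h3
          exact (hn' hX hA hq hu hf hsA hsU hsq hs10 h3.1 h3.2).le (le_max_right _ _)
        · exact ((hn s hsA hsU hsq hs10).2 hi h2).le (le_max_left _ _)

/-- Special replies `s` of Second, with a plan for the position after `s`. -/
def nkk2 (nl : List Ent) (X : ℕ) (nk : List (ℕ × Q0)) : Bool :=
  @List.rec (ℕ × Q0) (fun _ => Bool) true
    (fun p _ r => Bool.and (Bool.and (fre X p.1) (Bool.and (lev p.2 (Nat.lor X (bit p.1)))
      (anyu2 (Nat.lor X (bit p.1)) (am p.2) nl))) r) nk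

theorem anyu2_get {X q : ℕ} {l : List Ent} (h : anyu2 X q l = true) : ∃ e ∈ l, us2 X q e = true := by
  induction l with
  | nil => exact absurd (show false = true from h) (by decide)
  | cons e l ih =>
    change @Bool.rec (fun _ => Bool) (anyu2 X q l) true (us2 X q e) = true at h
    cases hu : us2 X q e with
    | false =>
      rw [hu] at h
      obtain ⟨e', h1, h2⟩ := ih h
      exact ⟨e', List.mem_cons_of_mem _ h1, h2⟩
    | true => exact ⟨e, List.mem_cons_self, hu⟩

theorem nkk2_get {XB M0 : ℕ} (hB : Base XB M0) {nl : List Ent} (hn : AC XB M0 nl) {X : ℕ} {A U : Finset Cell}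
    (hX : Rep X A U) (hA : ∀ c ∈ cells M0, c ∈ A) {nk : List (ℕ × Q0)} (h : nkk2 nl X nk = true) :
    ∃ n, ∀ s ∈ cells (nko nk), W n A (insert s U) := by
  induction nk with
  | nil =>
    refine ⟨0, fun s hs => ?_⟩
    have := (mem_cells.1 hs).2
    change (0 : ℕ).testBit _ = true at this
    rw [Nat.zero_testBit] at this
    exact absurd this (by simp)
  | cons p l ih =>
    obtain ⟨h1, h2⟩ := andb (a := Bool.and (fre X p.1) (Bool.and (lev p.2 (Nat.lor X (bit p.1)))
      (anyu2 (Nat.lor X (bit p.1)) (am p.2) nl))) h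
    obtain ⟨hf, h3⟩ := andb h1
    obtain ⟨hlev, h4⟩ := andb h3
    obtain ⟨n, hn'⟩ := ih h2
    obtain ⟨e, he, hu⟩ := anyu2_get h4
    obtain ⟨n', hn''⟩ := use2 hB (hn e he)
    obtain ⟨hm, hmi, hmA, hmB⟩ := fre_spec hX hf
    have hX' := hX.plB hf
    refine ⟨max n (n' + dp p.2), fun s hs => ?_⟩
    rcases mem_lor.1 hs with hs | hs
    · rw [mem_bit hm] at hs
      subst hs
      exact (hn'' hX' hA hlev hu Finset.subset_union_right hX'.dis.symm).le (le_max_right _ _)
    · exact (hn' s hs).le (le_max_left _ _)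

/-- The entry at scope 1 is usable at the position `X`, where exactly the stones `V` of its set are on the board; `Y` is
`X` without `V`, and `o` the plan cells. -/
def us3 (Y o : ℕ) (X V : ℕ) (e : Ent1) : Bool :=
  Bool.and (Nat.beq (Nat.land e.1 (su X)) V) (Bool.and (Nat.beq (Nat.land (su Y) e.2.1) 0) (Nat.beq (Nat.land o e.2.2) 0))

/-- Union of the sets of the usable entries. -/
def covd3 (Y o X V : ℕ) (l : List Ent1) : ℕ :=
  @List.rec Ent1 (fun _ => ℕ) (nat_lit 0) (fun e _ r => @Bool.rec (fun _ => ℕ) r (Nat.lor e.1 r) (us3 Y o X V e)) l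

theorem exp3 {XB M0 : ℕ} (hB : Base XB M0) {l : List Ent1} (hl : AC1 XB M0 l) {X V : ℕ} {A U : Finset Cell} {q : Q0}
    {p : Q1} (hX : Rep X A U) (hA : ∀ c ∈ cells M0, c ∈ A) (hV : D01 V) (hq : nod1 q p (dl X V) = true) :
    ∃ n, ∀ s, s ∈ cells (covd3 (dl X V) (on1 q p (dl X V)) X V l) → s ∉ A → W n A (insert s U) := by
  induction l with
  | nil =>
    refine ⟨0, fun s hs => ?_⟩
    have := (mem_cells.1 hs).2
    change (0 : ℕ).testBit _ = true at this
    rw [Nat.zero_testBit] at this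
    exact absurd this (by simp)
  | cons e l ih =>
    obtain ⟨n, hn⟩ := ih fun x hx => hl x (List.mem_cons_of_mem _ hx)
    obtain ⟨n', hn'⟩ := use1 hB (hl e List.mem_cons_self)
    refine ⟨max n (n' + max (dp q) (dp1 p)), fun s hs hsA => ?_⟩
    change s ∈ cells (@Bool.rec (fun _ => ℕ) (covd3 (dl X V) (on1 q p (dl X V)) X V l)
      (Nat.lor e.1 (covd3 (dl X V) (on1 q p (dl X V)) X V l)) (us3 (dl X V) (on1 q p (dl X V)) X V e)) at hs
    cases hu : us3 (dl X V) (on1 q p (dl X V)) X V e with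
    | false =>
      rw [hu] at hs
      exact (hn s hs hsA).le (le_max_left _ _)
    | true =>
      rw [hu] at hs
      obtain ⟨hu1, hu2⟩ := andb (a := Nat.beq (Nat.land e.1 (su X)) V) hu
      have hu1 := Nat.eq_of_beq_eq_true hu1
      rcases mem_lor.1 hs with hs | hs
      · refine (hn' (dl_rep hX hV) hA hq hu2 (R := insert s U) ?_ ?_).le (le_max_right _ _)
        · intro x hx
          rcases Finset.mem_insert.1 hx with h | h
          · exact Finset.mem_union_left _ (h ▸ hs)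
          · by_cases hxV : x ∈ cells V
            · rw [← hu1] at hxV
              exact Finset.mem_union_left _ (mem_land.1 hxV).1
            · exact Finset.mem_union_right _ (Finset.mem_sdiff.2 ⟨h, hxV⟩)
        · rw [Finset.disjoint_insert_left]
          exact ⟨hsA, hX.dis.symm⟩
      · exact (hn s hs hsA).le (le_max_left _ _)

/-- All the conditions on the position `X`; `w` is the value of `covd3`. -/
def vk2 (M0 : ℕ) (nl fl : List Ent) (X : ℕ) (q : Q0) (nk : List (ℕ × Q0)) (ds : List (List ℕ × ℕ)) (w : ℕ) : Bool :=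
  Bool.and (Bool.and (Bool.and (Nat.beq (Nat.land X (Nat.mul (nat_lit 7) M0)) 0) (lev q X)) (Bool.and (dOk X (fm q)) (nkk2 nl X nk)))
    (Bool.and (Bool.and (anyu2 X (am q) nl) (dk X ds))
      (Nat.beq (Nat.lor (Nat.land (Nat.lor (Nat.lor (am q) (cel (Nat.lor X (fm q)) c10)) (unc2 X (am q) nl)) (emp X))
        (Nat.lor w (Nat.lor (Nat.lor (covd2 X (am q) fl) (nko nk)) (orl ds))))
        (Nat.lor w (Nat.lor (Nat.lor (covd2 X (am q) fl) (nko nk)) (orl ds)))))

theorem vk2_spec {XB M0 : ℕ} (hB : Base XB M0) {nl fl : List Ent} (hn : AC XB M0 nl) (hf : AC XB M0 fl) {X w : ℕ} (q : Q0)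
    (nk : List (ℕ × Q0)) (ds : List (List ℕ × ℕ)) (h : vk2 M0 nl fl X q nk ds w = true) (hd : AS ds)
    (hw : ∀ A U, Rep X A U → (∀ c ∈ cells M0, c ∈ A) → ∃ n, ∀ s, s ∈ cells w → s ∉ A → W n A (insert s U)) : VW X := by
  obtain ⟨h1, h2⟩ := andb (a := Bool.and (Bool.and (Nat.beq (Nat.land X (Nat.mul (nat_lit 7) M0)) 0) (lev q X)) (Bool.and (dOk X (fm q)) (nkk2 nl X nk))) h
  obtain ⟨h3, h4⟩ := andb (a := Bool.and (Nat.beq (Nat.land X (Nat.mul (nat_lit 7) M0)) 0) (lev q X)) h1
  obtain ⟨hM, hq⟩ := andb (a := Nat.beq (Nat.land X (Nat.mul (nat_lit 7) M0)) 0) h3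
  obtain ⟨hfq, hnk⟩ := andb (a := dOk X (fm q)) h4
  obtain ⟨h5, h6⟩ := andb (a := Bool.and (anyu2 X (am q) nl) (dk X ds)) h2
  obtain ⟨hany, hdk⟩ := andb (a := anyu2 X (am q) nl) h5
  intro A U hX
  have hA : ∀ c ∈ cells M0, c ∈ A := by
    intro c hc
    obtain ⟨hi, hb⟩ := mem_cells.1 hc
    have hD := D01.of hB.2
    have hM := Nat.eq_of_beq_eq_true hM
    change X &&& (7 * M0) = 0 at hM
    have h7 : dg (X &&& (7 * M0)) (ix c) = 0 := by rw [hM, dg_zero]
    rw [hD.tb, decide_eq_true_eq] at hb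
    rw [dg_land, dg_kmul hD 7 (by norm_num), hb] at h7
    have h8 := hX.le5 (ix c)
    have h9 : dg X (ix c) = 0 := by
      revert h7
      generalize dg X (ix c) = v at *
      interval_cases v <;> decide
    have := hX.zero (ix_lt hi) h9
    rwa [cl_ix hi] at this
  obtain ⟨n0, hn0⟩ := hw A U hX hA
  obtain ⟨n1, hn1⟩ := exp2 hB hf hX hA hq
  obtain ⟨n2, hn2⟩ := null2 hB hn hX hA hq hfq
  obtain ⟨n3, hn3⟩ := nkk2_get hB hn hX hA hnk
  obtain ⟨n4, hn4⟩ := hd.get hX hdk
  refine ⟨max n0 (max (max n1 n2) (max n3 n4)), fun s hsA hsU => ⟨safe0 hX (lev_saf hq) hsA, ?_⟩⟩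
  by_cases hH : s ∈ cells (Nat.lor (Nat.lor (am q) (cel (Nat.lor X (fm q)) c10)) (unc2 X (am q) nl))
  · have hi := (mem_cells.1 hH).1
    have h7 := lsub h6 (mem_land.2 ⟨hH, mem_emp hX hi hsA hsU⟩)
    rcases mem_lor.1 h7 with h7 | h7
    · exact (hn0 s h7 hsA).le (le_max_left _ _)
    · refine W.le (le_max_right _ _) ?_
      rcases mem_lor.1 h7 with h7 | h7
      · rcases mem_lor.1 h7 with h7 | h7
        · exact (hn1 s h7 hsA).le ((le_max_left _ _).trans (le_max_left _ _))
        · exact (hn3 s h7).le ((le_max_left _ _).trans (le_max_right _ _))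
      · exact (hn4 s hi (mem_cells.1 h7).2).le ((le_max_right _ _).trans (le_max_right _ _))
  · refine W.le (le_max_right _ _) ?_
    rw [mem_lor, mem_lor, not_or, not_or] at hH
    have h8 := hn2 s hsA hsU hH.1.1 hH.1.2
    by_cases hi : Inb s
    · exact (h8.2 hi hH.2).le ((le_max_right _ _).trans (le_max_left _ _))
    · exact (h8.1 hany hi).le ((le_max_right _ _).trans (le_max_left _ _))

/-- **Second to move**: as `VW.of`; the stones of an entry may be on the board. -/
theorem VW.of2 {XB M0 : ℕ} (hB : Base XB M0) {nl fl : List Ent} (hn : AC XB M0 nl) (hf : AC XB M0 fl) {X : ℕ} (q : Q0)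
    (nk : List (ℕ × Q0)) (ds : List (List ℕ × ℕ)) (h : vk2 M0 nl fl X q nk ds 0 = true) (hd : AS ds) : VW X := by
  refine vk2_spec hB hn hf q nk ds h hd fun A U hX hA => ⟨0, fun s hs => ?_⟩
  have := (mem_cells.1 hs).2
  rw [Nat.zero_testBit] at this
  exact absurd this (by simp)

/-- **Second to move**: as `VW.of1`; the stones of an entry may be on the board. The entries at scope 1 contain
the stones `V` of Second. -/
theorem VW.of3 {XB M0 : ℕ} (hB : Base XB M0) {nl fl : List Ent} {gl : List Ent1} (hn : AC XB M0 nl) (hf : AC XB M0 fl)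
    (hg : AC1 XB M0 gl) {X : ℕ} (q : Q0) (q1 : Q0) (p1 : Q1) (V : ℕ)
    (nk : List (ℕ × Q0)) (ds : List (List ℕ × ℕ))
    (h : Bool.and (Bool.and (Nat.beq (Nat.lor V ones) ones) (nod1 q1 p1 (dl X V)))
      (vk2 M0 nl fl X q nk ds (covd3 (dl X V) (on1 q1 p1 (dl X V)) X V gl)) = true) (hd : AS ds) : VW X := by
  obtain ⟨h1, h⟩ := andb h
  obtain ⟨hV, hnod⟩ := andb h1
  exact vk2_spec hB hn hf q nk ds h hd fun A U hX hA => exp3 hB hg hX hA (D01.of hV) hnod

end Pool.Agent.H10.Five
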